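import Pool.Agent.U687.MC.Conv2

/-!
# Bounds for the probability of the corank zero
-/

set_option autoImplicit false
set_option linter.unusedSectionVars false

open scoped Classical

namespace Pool.Agent.U687.MC

open Finset Matrix Filter Topology

section
variable {n : ℕ}

/-- the mean over the new row -/
theorem sum_b (R : Matrix (Fin n) (Fin (n + 1)) (ZMod 3)) (a : Fin n → ZMod 3) :
    ∑ b : Fin (n + 1) → ZMod 3, pt 0 (cor (pert R a b)) =
      if (R + dg a).rank = n then 2 * 3 ^ n else 0 := by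
  have h1 := mean_addr (R + dg a) fun s => pt 0 (n + 1 - s)
  have h2 : ∑ b : Fin (n + 1) → ZMod 3, pt 0 (cor (pert R a b)) =
      ∑ w : Fin (n + 1) → ZMod 3, (fun s => pt 0 (n + 1 - s)) (addr (R + dg a) w).rank := rfl
  rw [h2, h1]
  have hle : (R + dg a).rank ≤ n := by
    have := Matrix.rank_le_height (R + dg a)
    simpa using this
  by_cases h : (R + dg a).rank = n
  · rw [if_pos h, h]
    have e1 : pt 0 (n + 1 - n) = 0 := by
      unfold pt
      rw [if_neg (by omega)]
    have e2 : pt 0 (n + 1 - (n + 1)) = 1 := by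
      unfold pt
      rw [if_pos (by omega)]
    rw [e1, e2, pow_succ]
    ring
  · rw [if_neg h]
    have e1 : pt 0 (n + 1 - (R + dg a).rank) = 0 := by
      unfold pt
      rw [if_neg (by omega)]
    have e2 : pt 0 (n + 1 - ((R + dg a).rank + 1)) = 0 := by
      unfold pt
      rw [if_neg (by omega)]
    rw [e1, e2]
    ring

theorem d2_zero_le (R : Matrix (Fin n) (Fin (n + 1)) (ZMod 3)) : d2 0 R 0 ≤ 2 / 3 := by
  show (∑ a : Fin n → ZMod 3, ∑ b : Fin (n + 1) → ZMod 3, pt 0 (cor (pert R a b))) /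
      3 ^ (2 * n + 1) ≤ _
  rw [div_le_iff₀ (by positivity)]
  have h1 : ∑ a : Fin n → ZMod 3, ∑ b : Fin (n + 1) → ZMod 3, pt 0 (cor (pert R a b)) ≤
      ∑ _a : Fin n → ZMod 3, (2 : ℝ) * 3 ^ n := by
    refine Finset.sum_le_sum fun a _ => ?_
    rw [sum_b]
    split_ifs
    · exact le_refl _
    · positivity
  refine h1.trans (le_of_eq ?_)
  rw [Finset.sum_const, Finset.card_univ, Fintype.card_fun, Fintype.card_fin, ZMod.card,
    nsmul_eq_mul]
  push_cast
  rw [pow_succ, mul_comm 2 n, pow_mul]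
  ring

theorem rank_of_det (R : Matrix (Fin n) (Fin (n + 1)) (ZMod 3)) (a : Fin n → ZMod 3)
    (h : (Matrix.of (fun p k : Fin n => R p k.castSucc) + diagonal a).det ≠ 0) :
    (R + dg a).rank = n := by
  apply le_antisymm
  · have := Matrix.rank_le_height (R + dg a)
    simpa using this
  · have h1 : (Matrix.of (fun p k : Fin n => R p k.castSucc) + diagonal a) =
        (R + dg a).submatrix id Fin.castSucc := by
      ext p k
      rw [Matrix.submatrix_apply, Matrix.add_apply, Matrix.add_apply, Matrix.of_apply,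
        Matrix.diagonal_apply]
      show _ = R p k.castSucc + (if p.castSucc = k.castSucc then a p else 0)
      simp only [Fin.castSucc_inj]
    have h2 : IsUnit (Matrix.of (fun p k : Fin n => R p k.castSucc) + diagonal a) :=
      (Matrix.isUnit_iff_isUnit_det _).2 (isUnit_iff_ne_zero.2 h)
    have h3 := Matrix.rank_of_isUnit _ h2
    rw [Fintype.card_fin, h1] at h3
    refine h3.symm.le.trans ?_
    -- the columns of the submatrix are columns of the matrix
    have h0 : ∀ N : Matrix (Fin n) (Fin (n + 1)) (ZMod 3),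
        (N.submatrix id Fin.castSucc).rank ≤ N.rank := by
      intro N
      have e1 : (N.submatrix id Fin.castSucc).rank =
        Module.finrank (ZMod 3) (LinearMap.range (N.submatrix id Fin.castSucc).mulVecLin) := rfl
      have e2 : N.rank = Module.finrank (ZMod 3) (LinearMap.range N.mulVecLin) := rfl
      rw [e1, e2]
      refine Submodule.finrank_mono ?_
      rintro y ⟨x, rfl⟩
      refine ⟨Fin.snoc x 0, ?_⟩
      funext p
      rw [Matrix.mulVecLin_apply, Matrix.mulVecLin_apply]
      show ∑ k, N p k * (Fin.snoc x 0 : Fin (n + 1) → ZMod 3) k = ∑ k, N p k.castSucc * x k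
      rw [Fin.sum_univ_castSucc]
      simp only [Fin.snoc_castSucc, Fin.snoc_last, mul_zero, add_zero]
    exact h0 _

theorem d2_zero_ge (R : Matrix (Fin n) (Fin (n + 1)) (ZMod 3)) : (2 / 3 : ℝ) ^ (n + 1) ≤ d2 0 R 0 := by
  show _ ≤ (∑ a : Fin n → ZMod 3, ∑ b : Fin (n + 1) → ZMod 3, pt 0 (cor (pert R a b))) /
      3 ^ (2 * n + 1)
  rw [le_div_iff₀ (by positivity)]
  have h1 := Pool.Agent.U687.PT.pd_all (Fin n) inferInstance
    (Matrix.of (fun p k : Fin n => R p k.castSucc))
  rw [Fintype.card_fin, Nat.card_eq_fintype_card, Fintype.card_subtype] at h1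
  have h2 : ∑ a : Fin n → ZMod 3, (if (Matrix.of (fun p k : Fin n => R p k.castSucc) +
      diagonal a).det ≠ 0 then (2 : ℝ) * 3 ^ n else 0) ≤
      ∑ a : Fin n → ZMod 3, ∑ b : Fin (n + 1) → ZMod 3, pt 0 (cor (pert R a b)) := by
    refine Finset.sum_le_sum fun a _ => ?_
    rw [sum_b]
    split_ifs with h3 h4 h5
    · exact le_refl _
    · exact absurd (rank_of_det R a h3) h4
    · positivity
    · exact le_refl _
  refine le_trans ?_ h2
  rw [← Finset.sum_filter, Finset.sum_const, nsmul_eq_mul]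
  have h3 : ((2 : ℝ)) ^ n ≤ ((Finset.univ.filter fun a : Fin n → ZMod 3 =>
      (Matrix.of (fun p k : Fin n => R p k.castSucc) + diagonal a).det ≠ 0).card : ℝ) := by
    exact_mod_cast h1
  have h4 : (2 / 3 : ℝ) ^ (n + 1) * 3 ^ (2 * n + 1) = 2 ^ n * (2 * 3 ^ n) := by
    rw [div_pow, pow_succ (2 : ℝ), pow_succ (3 : ℝ) n, pow_succ (3 : ℝ) (2 * n), two_mul, pow_add]
    field_simp
  rw [h4]
  exact mul_le_mul_of_nonneg_right h3 (by positivity)

theorem d2_ge (k : ℕ) (R : Matrix (Fin n) (Fin (n + 1)) (ZMod 3)) :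
    (2 / 3 : ℝ) ^ (n + 1 + k) ≤ d2 k R 0 := by
  induction k with
  | zero => exact d2_zero_ge R
  | succ k ih =>
    rw [d2_succ]
    unfold T2
    rw [if_pos rfl]
    have h1 := d2_nonneg k R 1
    norm_num
    rw [← add_assoc, pow_succ]
    linarith

theorem d2_le (k : ℕ) (R : Matrix (Fin n) (Fin (n + 1)) (ZMod 3)) : d2 k R 0 ≤ 2 / 3 := by
  rcases k with _ | k
  · exact d2_zero_le R
  · rw [d2_succ]
    unfold T2
    rw [if_pos rfl]
    have h1 := d2_nonneg k R 1
    have h2 : d2 k R 0 + d2 k R 1 ≤ 1 := by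
      rw [← d2_sum k R (show n + 1 + k < n + k + 2 by omega)]
      have h3 : ∑ s ∈ Finset.range 2, d2 k R s ≤ ∑ s ∈ Finset.range (n + k + 2), d2 k R s :=
        Finset.sum_le_sum_of_subset_of_nonneg (Finset.range_subset_range.2 (by omega))
          fun s _ _ => d2_nonneg k R s
      rw [Finset.sum_range_succ, Finset.sum_range_one] at h3
      exact h3
    norm_num
    linarith

end

end Pool.Agent.U687.MC
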