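import Pool.Agent.U687.MC.RatLaw

/-!
# Iterated prime twists over the rational numbers
-/

set_option autoImplicit false
set_option linter.unusedSectionVars false

open scoped Classical

namespace Pool.Agent.U687.MC

open Finset Matrix Filter Topology
open Pool.Agent.Y703.CX (lam)
open Pool.Agent.Y703.CT (NoSplit Cls)
open Pool.Agent.Y692.QS
open Pool.Agent.Y715.T.Rec (cs nn)
open Pool.Agent.Y715.T.RecG (Pq cs_of)
open Pool.Agent.Y333.CX (pp_spec)
open Q283.TQ (NSg mu Bs aa bb crit bs_mul mu_mul mu_mul_self lam_aa lam_bb cls_iff)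
open Pool.Agent.U687.PT

theorem sy_fst (D : ℕ) (π : Ei) (p : S1 D) : (sy D π).1 p = aa π p := by
  have hx : ∀ e ∈ PP D, extE (fun q : PP D => cs π q) e = cs π e := fun e he =>
    extE_of (fun q : PP D => cs π q) ⟨e, he⟩
  show extE (fun q : PP D => cs π q) (Pool.Agent.Y703.CX.pp p) -
    extE (fun q : PP D => cs π q) (star (Pool.Agent.Y703.CX.pp p)) = _
  rw [hx _ (mem_PP.2 (Or.inl ⟨p, p.2, rfl⟩)), hx _ (mem_PP.2 (Or.inr (Or.inl ⟨p, p.2, rfl⟩)))]
  rfl

theorem sy_snd (D : ℕ) (π : Ei) (r : D.primeFactors) : (sy D π).2 r = bb π r := by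
  have hx : ∀ e ∈ PP D, extE (fun q : PP D => cs π q) e = cs π e := fun e he =>
    extE_of (fun q : PP D => cs π q) ⟨e, he⟩
  show (if (r : ℕ) % 3 = 1 then extE (fun q : PP D => cs π q) (Pool.Agent.Y703.CX.pp r) +
    extE (fun q : PP D => cs π q) (star (Pool.Agent.Y703.CX.pp r)) else
    extE (fun q : PP D => cs π q) (-((r : ℕ) : Ei))) = _
  unfold bb
  by_cases h1 : (r : ℕ) % 3 = 1
  · have hm : (r : ℕ) ∈ S1 D := mem_S1.2 ⟨r.2, h1⟩
    rw [if_pos h1, if_pos h1, hx _ (mem_PP.2 (Or.inl ⟨r, hm, rfl⟩)),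
      hx _ (mem_PP.2 (Or.inr (Or.inl ⟨r, hm, rfl⟩)))]
  · rw [if_neg h1, if_neg h1]
    refine hx _ (mem_PP.2 (Or.inr (Or.inr ⟨r, ?_, rfl⟩)))
    rw [Finset.mem_sdiff, mem_S1]
    exact ⟨r.2, fun h => h1 h.2⟩

section
variable {D n : ℕ} {P : Fin (n + 1) → ℕ}

theorem mean_en (hD : Bs D) (h : En D n P) {j : ℕ} (hj : j = 1 ∨ j = 4 ∨ j = 7)
    (F : (Fin n → ZMod 3) → (Fin (n + 1) → ZMod 3) → ℝ) (T : ℕ → ℝ)
    (hT : ∀ l : ℕ, l.Prime → l % 9 = j → ¬ l ∣ D → ∀ π : Ei, Pq π → nr π = l →
      T l = F (fun p => aa π (P p.castSucc)) (fun k => mu D (P k) * bb π (P k))) :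
    Tendsto (aq j D T) atTop (𝓝 ((∑ x, ∑ y, F x y) / 3 ^ (2 * n + 1))) := by
  have h1 := meanQ hD hj (fun z => F (fun p => z.1 (h.e1 p)) (fun k => mu D (P k) * z.2 (h.e2 k))) T
    (by
      intro l hl hlj hlD π hπ hn
      rw [hT l hl hlj hlD π hπ hn]
      congr 1
      · funext p
        exact (sy_fst D π (h.e1 p)).symm
      · funext k
        rw [sy_snd D π (h.e2 k)]
        rfl)
  rw [h.card] at h1
  have h2 : ∑ z : (S1 D → ZMod 3) × (D.primeFactors → ZMod 3),
      F (fun p => z.1 (h.e1 p)) (fun k => mu D (P k) * z.2 (h.e2 k)) = ∑ x, ∑ y, F x y := by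
    rw [Fintype.sum_prod_type]
    refine Fintype.sum_equiv (Equiv.arrowCongr h.e1.symm (Equiv.refl (ZMod 3))) _ _ fun x => ?_
    have e1 : (Equiv.arrowCongr h.e1.symm (Equiv.refl (ZMod 3))) x = fun p => x (h.e1 p) := by
      funext p
      rfl
    rw [e1]
    rw [← sum_mul_eq (s := fun k => mu D (P k)) (fun k => hD.mu_ne _ (h.mem k))
      (fun y => F (fun p => x (h.e1 p)) y)]
    refine Fintype.sum_equiv (Equiv.arrowCongr h.e2.symm (Equiv.refl (ZMod 3))) _ _ fun y => ?_
    rfl
  rw [h2] at h1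
  exact h1

/-- the matrix after the adjunction of a prime -/
theorem rd_mul (hD : D ≠ 0) (h : En D n P) {l : ℕ} (hl : l.Prime) (hlD : ¬ l ∣ D) :
    RD (D * l) (Fin.cons l P : Fin (n + 2) → ℕ) =
      addr (addc (RD D P) (fun p => lam (P p.castSucc) l))
        (Fin.cons (mu (D * l) l * lam l l) (fun k => mu D (P k) * lam l (P k)) :
          Fin (n + 2) → ZMod 3) := by
  have hne : ∀ k, P k ≠ l := fun k hk => hlD (hk ▸ Nat.dvd_of_mem_primeFactors (h.mem k))
  ext p k
  refine Fin.cases ?_ (fun p => ?_) p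
  · refine Fin.cases ?_ (fun k => ?_) k
    · rfl
    · show mu (D * l) (P k) * lam l (P k) = mu D (P k) * lam l (P k)
      rw [mu_mul hD hl (hne k)]
  · refine Fin.cases ?_ (fun k => ?_) k
    · show mu (D * l) l * lam (P p.castSucc) l = lam (P p.castSucc) l
      rw [mu_mul_self hD hl hlD, one_mul]
    · show mu (D * l) (P k) * lam (P p.castSucc) (P k) = mu D (P k) * lam (P p.castSucc) (P k)
      rw [mu_mul hD hl (hne k)]

end

/-- the values `u` for the corank zero and `v` otherwise -/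
noncomputable def uw (u v : ℝ) (r : ℕ) : ℝ := if r = 0 then u else v

theorem EG_uw (k : ℕ) {n : ℕ} (R : Matrix (Fin n) (Fin (n + 1)) (ZMod 3)) (u v : ℝ) :
    EG k R (uw u v) = v + (u - v) * d2 k R 0 := by
  have h1 : uw u v = fun r => v * 1 + (u - v) * pt 0 r := by
    funext r
    unfold uw pt
    by_cases hr : r = 0
    · rw [if_pos hr, if_pos hr]
      ring
    · rw [if_neg hr, if_neg hr]
      ring
  rw [h1, EG_add, EG_smul, EG_smul, EG_one, mul_one]
  rfl

/-- the iterated means -/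
noncomputable def itq (j : ℕ → ℕ) (T : ℕ → ℝ) : ℕ → ℕ → ℝ
  | 0, D => T D
  | k + 1, D => limUnder atTop (aq (j k) D (fun l => itq j T k (D * l)))

/-- **the iterated means** -/
theorem itq_main (j : ℕ → ℕ) (hj : ∀ i, j i = 1 ∨ j i = 4 ∨ j i = 7) (u v : ℝ) (T : ℕ → ℝ)
    (hT : ∀ N, Cls N → T N = if NoSplit N then u else v) (k : ℕ) :
    ∀ (D n : ℕ) (P : Fin (n + 1) → ℕ), Bs D → En D n P →
      (D * ∏ i ∈ Finset.range (k + 1), j i) % 9 ≠ 1 →
      (D * ∏ i ∈ Finset.range (k + 1), j i) % 9 ≠ 8 →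
      Tendsto (aq (j k) D (fun l => itq j T k (D * l))) atTop (𝓝 (EG k (RD D P) (uw u v))) ∧
        itq j T (k + 1) D = EG k (RD D P) (uw u v) := by
  induction k with
  | zero =>
    intro D n P hD h c1 c8
    rw [Finset.prod_range_one] at c1 c8
    have h1 := mean_en hD h (hj 0)
      (fun x y => uw u v (cor (pert (RD D P) (fun p => -(∑ k, RD D P p k) - x p) y)))
      (fun l => itq j T 0 (D * l)) (by
        intro l hl hlj hlD π hπ hn
        have hl1 : l % 3 = 1 := by rcases hj 0 with h | h | h <;> omega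
        have hB := bs_mul hD hl hl1 hlD
        have e9 : (D * l) % 9 = (D * j 0) % 9 := by
          rw [Nat.mul_mod, hlj, Nat.mul_mod D (j 0), ← hlj, Nat.mod_mod]
        have hC : Cls (D * l) := (cls_iff hB).2 ⟨by rw [e9]; exact c1, by rw [e9]; exact c8⟩
        show T (D * l) = _
        rw [hT _ hC]
        have h3 := (crit hD hl hl1 hlD hπ hn).trans (nsg_cor h (aa π) (bb π))
        unfold uw
        by_cases h5 : NoSplit (D * l)
        · rw [if_pos h5, if_pos (h3.1 h5)]
        · rw [if_neg h5, if_neg fun h6 => h5 (h3.2 h6)])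
    have h2 : ∑ x : Fin n → ZMod 3, ∑ y : Fin (n + 1) → ZMod 3,
        uw u v (cor (pert (RD D P) (fun p => -(∑ k, RD D P p k) - x p) y)) =
        ∑ a : Fin n → ZMod 3, ∑ b : Fin (n + 1) → ZMod 3, uw u v (cor (pert (RD D P) a b)) :=
      Fintype.sum_equiv (Equiv.subLeft fun p => -(∑ k, RD D P p k)) _ _ fun x => rfl
    rw [h2] at h1
    exact ⟨h1, h1.limUnder_eq⟩
  | succ k ih =>
    intro D n P hD h c1 c8
    have h1 := mean_en hD h (hj (k + 1)) (fun x y => EG k (br (RD D P) x y) (uw u v))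
      (fun l => itq j T (k + 1) (D * l)) (by
        intro l hl hlj hlD π hπ hn
        have hl1 : l % 3 = 1 := by rcases hj (k + 1) with h | h | h <;> omega
        have hB := bs_mul hD hl hl1 hlD
        have e9 : (D * l * ∏ i ∈ Finset.range (k + 1), j i) % 9 =
            (D * ∏ i ∈ Finset.range (k + 1 + 1), j i) % 9 := by
          rw [Finset.prod_range_succ (fun i => j i) (k + 1)]
          have e1 : l ≡ j (k + 1) [MOD 9] := by
            show l % 9 = j (k + 1) % 9
            rw [hlj]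
            rcases hj (k + 1) with h | h | h <;> rw [h]
          have e2 : D * l * ∏ i ∈ Finset.range (k + 1), j i ≡
              D * j (k + 1) * ∏ i ∈ Finset.range (k + 1), j i [MOD 9] :=
            (e1.mul_left D).mul_right _
          rw [show D * ((∏ i ∈ Finset.range (k + 1), j i) * j (k + 1)) =
            D * j (k + 1) * ∏ i ∈ Finset.range (k + 1), j i by ring]
          exact e2
        have h4 := (ih (D * l) (n + 1) (Fin.cons l P) hB (h.cons hD.ne_zero hl hl1 hlD)
          (by rw [e9]; exact c1) (by rw [e9]; exact c8)).2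
        show itq j T (k + 1) (D * l) = _
        rw [h4, rd_mul hD.ne_zero h hl hlD, EG_corner]
        have hne : ∀ k, P k ≠ l := fun k hk => hlD (hk ▸ Nat.dvd_of_mem_primeFactors (h.mem k))
        have hpr : ∀ k, (P k).Prime := fun k => Nat.prime_of_mem_primeFactors (h.mem k)
        have hx : (fun p : Fin n => lam (P p.castSucc) l) = fun p => aa π (P p.castSucc) :=
          funext fun p => lam_aa hπ hn hl (hpr _) (h.one p) (hne _)
        rw [hx]
        rcases lam_bb hπ hn hl hl1 with h5 | h5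
        · have hy : (fun k => mu D (P k) * lam l (P k)) = fun k => mu D (P k) * bb π (P k) :=
            funext fun k => by rw [h5 _ (hpr k) (hD.case _ (h.mem k)) (hne k)]
          rw [hy]
        · have hy : (fun k => mu D (P k) * lam l (P k)) = -fun k => mu D (P k) * bb π (P k) :=
            funext fun k => by
              rw [h5 _ (hpr k) (hD.case _ (h.mem k)) (hne k), Pi.neg_apply]
              ring
          rw [hy, EG_neg])
    exact ⟨h1, h1.limUnder_eq⟩

end Pool.Agent.U687.MC
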