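import Pool.Agent.U687.MC.Conv

/-!
# Iterated means over primes
-/

set_option autoImplicit false
set_option linter.unusedSectionVars false

open scoped Classical

namespace Pool.Agent.U687.MC

open Finset Matrix Filter Topology NumberField
open Pool.Agent.U687.KT
open Pool.Agent.Y692.QS (Ei w nr)
open Pool.Agent.Y715.T.Rec (cs)
open Pool.Agent.Y715.T.RecG (Pq)
open Pool.Agent.Y703.CT (Dt pD)

section
variable {K : Type} [Field K] [NumberField K]

/-- the primes -/
def PR (K : Type) [Field K] [NumberField K] (a : ZMod 3) (X : ℕ) : Set (𝓞 K) :=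
  {q : 𝓞 K | Prime q ∧ (3 : 𝓞 K) ∣ q - 1 ∧ Algebra.norm ℤ q ≤ X ∧
    Algebra.norm ℤ q % 9 = 1 + 3 * (a.val : ℤ)}

theorem pr_fin (j : Ei ≃+* 𝓞 K) (hj : ∀ z : Ei, Algebra.norm ℤ (j z) = nr z) (a : ZMod 3) (X : ℕ) :
    (PR K a X).Finite := by
  refine ((Q283.TC.fin_nr X).image j).subset ?_
  rintro q ⟨-, -, h, -⟩
  obtain ⟨z, rfl⟩ := j.surjective q
  refine ⟨z, ?_, rfl⟩
  rw [hj] at h
  exact h

/-- the mean over the primes not dividing `D` -/
noncomputable def av (a : ZMod 3) (D : 𝓞 K) (T : 𝓞 K → ℝ) (X : ℕ) : ℝ :=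
  (∑ᶠ q ∈ {q : 𝓞 K | q ∈ PR K a X ∧ ¬ q ∣ D}, T q) / ((PR K a X).ncard : ℝ)

variable (j : Ei ≃+* 𝓞 K)

/-- the primes that divide `D` -/
theorem dvd_D (hj : ∀ z : Ei, Algebra.norm ℤ (j z) = nr z) {D : 𝓞 K} {n : ℕ}
    {π : Fin n → 𝓞 K} {e : Fin n → ZMod 3} {χ : Fin n → Fin n → ZMod 3}
    (h : RF (j w) D n π e χ) {z : Ei} (hz : Pq z) :
    (¬ j z ∣ D) ↔ ∀ k, j.symm (π k) ≠ z := by
  obtain ⟨hdt, hD, -⟩ := rf_data j hj h
  constructor
  · intro h1 k hk
    apply h1
    rw [hD, ← hk]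
    apply map_dvd j
    unfold Pool.Agent.Y703.CT.pD
    refine dvd_trans (dvd_pow_self _ ?_) (Finset.dvd_prod_of_mem _ (Finset.mem_univ k))
    intro h0
    exact hdt.e0 k ((ZMod.val_eq_zero _).1 h0)
  · intro h1 h2
    have h3 := map_dvd j.symm h2
    rw [RingEquiv.symm_apply_apply, hD, RingEquiv.symm_apply_apply] at h3
    unfold Pool.Agent.Y703.CT.pD at h3
    obtain ⟨k, -, hk⟩ := (hz.prime.dvd_finsetProd_iff _).1 h3
    exact h1 k (eq_of_dvd hz (hdt.pq k) (hz.prime.dvd_of_dvd_pow hk)).symm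

/-- **the mean of a function of the symbols** -/
theorem mean_law (hj : ∀ z : Ei, Algebra.norm ℤ (j z) = nr z) {D : 𝓞 K} {n : ℕ}
    {π : Fin n → 𝓞 K} {e : Fin n → ZMod 3} {χ : Fin n → Fin n → ZMod 3}
    (h : RF (j w) D n π e χ) (a : ZMod 3) (F : (Fin n → ZMod 3) → ℝ) (T : 𝓞 K → ℝ)
    (hT : ∀ z, Pq z → (∀ k, j.symm (π k) ≠ z) → cs z w = a →
      T (j z) = F (fun k => cs z (j.symm (π k)))) :
    Tendsto (av a D T) atTop (𝓝 ((∑ x, F x) / 3 ^ n)) := by
  obtain ⟨hdt, -, -⟩ := rf_data j hj h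
  set sy : 𝓞 K → Fin n → ZMod 3 := fun q k => cs (j.symm q) (j.symm (π k)) with hsy
  have hinj : Function.Injective
      (fun x : (Σ _ : Unit, Fin n) => (fun (_ : Unit) k => j.symm (π k)) x.1 x.2) := by
    rintro ⟨⟨⟩, k⟩ ⟨⟨⟩, l⟩ hkl
    have hkl' : j.symm (π k) = j.symm (π l) := hkl
    have : k = l := by
      by_contra hne
      exact hdt.nd k l hne (by rw [hkl'])
    rw [this]
  have h1 : ∀ x : Fin n → ZMod 3, Tendsto (fun X : ℕ =>
      ({q : 𝓞 K | q ∈ PR K a X ∧ (¬ q ∣ D ∧ sy q = x)}.ncard : ℝ) / ((PR K a X).ncard : ℝ))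
      atTop (𝓝 (1 / 3 ^ n)) := by
    intro x
    have hlaw := law (ι := Unit) (n := fun _ => n) (fun _ k => j.symm (π k))
      (fun _ k => hdt.pq k) hinj a (fun _ y => y = x) (fun z => ¬ j z ∣ D ∧ sy (j z) = x) (by
        intro z hz hne _
        have h2 := (dvd_D j hj h hz).2 (hne ())
        have h3 : sy (j z) = fun k => cs z (j.symm (π k)) := by
          rw [hsy]
          simp only [RingEquiv.symm_apply_apply]
        rw [h3]
        exact ⟨fun h4 _ => h4.2, fun h4 => ⟨h2, h4 ()⟩⟩)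
    have h4 : ∏ _s : Unit, (Nat.card {y : Fin n → ZMod 3 // y = x} : ℝ) / 3 ^ n = 1 / 3 ^ n := by
      rw [Finset.univ_unique, Finset.prod_singleton]
      simp
    rw [h4] at hlaw
    refine hlaw.congr fun X => ?_
    have e0 := sets_eq' j hj a (fun _ => True) X
    simp only [and_true] at e0
    have e1 := sets_eq' j hj a (fun q => ¬ q ∣ D ∧ sy q = x) X
    rw [← e1, ← e0]
    rfl
  have h2 : Tendsto (fun X : ℕ => ∑ x : Fin n → ZMod 3, F x *
      (({q : 𝓞 K | q ∈ PR K a X ∧ (¬ q ∣ D ∧ sy q = x)}.ncard : ℝ) / ((PR K a X).ncard : ℝ)))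
      atTop (𝓝 (∑ x : Fin n → ZMod 3, F x * (1 / 3 ^ n))) :=
    tendsto_finsetSum _ fun x _ => (h1 x).const_mul (F x)
  have h3 : ∑ x : Fin n → ZMod 3, F x * (1 / 3 ^ n) = (∑ x, F x) / 3 ^ n := by
    rw [← Finset.sum_mul, mul_one_div]
  rw [h3] at h2
  refine h2.congr fun X => ?_
  have hfin : {q : 𝓞 K | q ∈ PR K a X ∧ ¬ q ∣ D}.Finite := (pr_fin j hj a X).subset fun q hq => hq.1
  unfold av
  rw [finsum_mem_eq_finite_toFinset_sum _ hfin, Finset.sum_div]
  have h8 : ∀ q ∈ hfin.toFinset, T q / ((PR K a X).ncard : ℝ) =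
      ∑ x : Fin n → ZMod 3, if sy q = x then F x / ((PR K a X).ncard : ℝ) else 0 := by
    intro q hq
    have hq' := hfin.mem_toFinset.1 hq
    rw [Finset.sum_ite_eq, if_pos (Finset.mem_univ _)]
    congr 1
    obtain ⟨⟨p1, p2, -, p4⟩, hq2⟩ := hq'
    obtain ⟨z, rfl⟩ := j.surjective q
    have hz : Pq z := by
      have := Pool.Agent.Y696.CTK.pq_symm j p1 p2
      rwa [RingEquiv.symm_apply_apply] at this
    rw [hT z hz ((dvd_D j hj h hz).1 hq2) ((norm_class hz a).1 (by rw [← hj]; exact p4))]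
    rw [hsy]
    simp only [RingEquiv.symm_apply_apply]
  rw [Finset.sum_congr rfl h8, Finset.sum_comm]
  refine Finset.sum_congr rfl fun x _ => ?_
  rw [← Finset.sum_filter, Finset.sum_const, nsmul_eq_mul]
  have h9 : {q : 𝓞 K | q ∈ PR K a X ∧ (¬ q ∣ D ∧ sy q = x)}.ncard =
      (hfin.toFinset.filter fun q => sy q = x).card := by
    rw [← Set.ncard_coe_finset]
    congr 1
    ext q
    simp only [Finset.coe_filter, Set.Finite.mem_toFinset, Set.mem_ofPred_eq]
    exact and_assoc.symm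
  rw [h9]
  ring

/-- the iterated means -/
noncomputable def it (a f : ℕ → ZMod 3) (T : 𝓞 K → ℝ) : ℕ → 𝓞 K → ℝ
  | 0, D => T D
  | k + 1, D => limUnder atTop (av (a k) D (fun q => it a f T k (D * q ^ (f k).val)))

/-- the number of the solutions -/
noncomputable def sol {n : ℕ} (e : Fin n → ZMod 3) (χ : Fin n → Fin n → ZMod 3) : ℕ :=
  Nat.card {v : Fin n → ZMod 3 // ∀ j, ∑ i, e i * χ j i * (v i - v j) = 0}

theorem SM_symm {n : ℕ} {e : Fin n → ZMod 3} {χ : Fin n → Fin n → ZMod 3}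
    (hs : ∀ k l, k ≠ l → χ k l = χ l k) : (SM e χ).IsSymm := by
  ext k l
  rw [Matrix.transpose_apply]
  show e l * χ l k * e k = e k * χ k l * e l
  by_cases hkl : k = l
  · rw [hkl]
  · rw [hs k l hkl]
    ring

theorem SM_cons {n : ℕ} (e : Fin n → ZMod 3) (χ : Fin n → Fin n → ZMod 3) (f : ZMod 3)
    (x : Fin n → ZMod 3) :
    SM (Fin.cons f e : Fin (n + 1) → ZMod 3) (ex1 χ x) = bord (SM e χ) 0 (fun k => f * e k * x k) := by
  ext k l
  show (Fin.cons f e : Fin (n + 1) → ZMod 3) k * ex1 χ x k l *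
    (Fin.cons f e : Fin (n + 1) → ZMod 3) l = _
  refine Fin.cases ?_ (fun k => ?_) k
  · refine Fin.cases ?_ (fun l => ?_) l
    · show f * 0 * f = 0
      ring
    · show f * x l * e l = f * e l * x l
      ring
  · refine Fin.cases ?_ (fun l => ?_) l
    · show e k * x k * f = f * e k * x k
      ring
    · rfl

theorem rf_symm (hj : ∀ z : Ei, Algebra.norm ℤ (j z) = nr z) {D : 𝓞 K} {n : ℕ}
    {π : Fin n → 𝓞 K} {e : Fin n → ZMod 3} {χ : Fin n → Fin n → ZMod 3}
    (h : RF (j w) D n π e χ) (k l : Fin n) (hkl : k ≠ l) : χ k l = χ l k := by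
  obtain ⟨hdt, -, hχ⟩ := rf_data j hj h
  rw [hχ k l hkl, hχ l k hkl.symm]
  exact (Pool.Agent.Y350.CT.rec _ _ (hdt.pq k) (hdt.pq l) (hdt.nd k l hkl)).symm

/-- **the iterated means of a function of the corank** -/
theorem it_main (hj : ∀ z : Ei, Algebra.norm ℤ (j z) = nr z) (a f : ℕ → ZMod 3)
    (hf : ∀ k, f k ≠ 0) (T : 𝓞 K → ℝ) (G : ℕ → ℝ)
    (hT : ∀ (D : 𝓞 K) (n : ℕ) (π : Fin n → 𝓞 K) (e : Fin n → ZMod 3)
      (χ : Fin n → Fin n → ZMod 3), RF (j w) D n π e χ → ¬ (9 : ℤ) ∣ Algebra.norm ℤ D - 1 →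
        ∀ r, sol e χ = 3 ^ (r + 1) → T D = G r) (k : ℕ) :
    ∀ (D : 𝓞 K) (n : ℕ) (π : Fin n → 𝓞 K) (e : Fin n → ZMod 3)
      (χ : Fin n → Fin n → ZMod 3), RF (j w) D n π e χ →
      ¬ (9 : ℤ) ∣ Algebra.norm ℤ D * ∏ i ∈ Finset.range (k + 1),
        (1 + 3 * ((a i).val : ℤ)) ^ (f i).val - 1 →
      Tendsto (av (a k) D (fun q => it a f T k (D * q ^ (f k).val))) atTop
          (𝓝 (EE k (SM e χ) G)) ∧
        it a f T (k + 1) D = EE k (SM e χ) G := by
  induction k with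
  | zero =>
    intro D n π e χ h ha
    obtain ⟨hdt, -, -⟩ := rf_data j hj h
    have hsym := rf_symm j hj h
    rw [Finset.prod_range_one] at ha
    have h1 := mean_law j hj h (a 0)
      (fun x => G (cor (SM e χ + diagonal (yx e χ (f 0) x))))
      (fun q => it a f T 0 (D * q ^ (f 0).val)) (by
        intro z hz hne haz
        show T (D * (j z) ^ (f 0).val) = _
        refine hT _ _ _ _ _ (rf_cons j hj h (hf 0) hz hne) (norm_nine ha ?_) _ ?_
        · rw [hj]
          exact (norm_class hz (a 0)).2 haz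
        · unfold sol
          rw [sol_card hdt.e0 (hf 0) hsym, (card_ker _).1, pow_succ']
          rfl)
    have h2 : ∑ x : Fin n → ZMod 3, G (cor (SM e χ + diagonal (yx e χ (f 0) x))) =
        ∑ y : Fin n → ZMod 3, G (cor (SM e χ + diagonal y)) :=
      Fintype.sum_bijective _ (yx_bij χ hdt.e0 (hf 0)) _ _ fun x => rfl
    rw [h2] at h1
    exact ⟨h1, h1.limUnder_eq⟩
  | succ k ih =>
    intro D n π e χ h ha
    obtain ⟨hdt, -, -⟩ := rf_data j hj h
    have h1 := mean_law j hj h (a (k + 1))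
      (fun x => EE k (bord (SM e χ) 0 (fun l => f (k + 1) * e l * x l)) G)
      (fun q => it a f T (k + 1) (D * q ^ (f (k + 1)).val)) (by
        intro z hz hne haz
        have h3 := rf_cons j hj h (hf (k + 1)) hz hne
        have h4 := (ih _ _ _ _ _ h3 (by
          intro h9
          apply ha
          have hq : Algebra.norm ℤ (j z) % 9 = 1 + 3 * ((a (k + 1)).val : ℤ) := by
            rw [hj]
            exact (norm_class hz (a (k + 1))).2 haz
          rw [map_mul, map_pow] at h9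
          have p1 : (9 : ℤ) ∣ Algebra.norm ℤ (j z) - (1 + 3 * ((a (k + 1)).val : ℤ)) := by
            rw [← hq]
            exact Int.dvd_self_sub_emod
          have p2 : (9 : ℤ) ∣ Algebra.norm ℤ (j z) ^ (f (k + 1)).val -
              (1 + 3 * ((a (k + 1)).val : ℤ)) ^ (f (k + 1)).val :=
            dvd_trans p1 (sub_dvd_pow_sub_pow _ _ _)
          rw [Finset.prod_range_succ]
          have e1 : Algebra.norm ℤ D * ((∏ i ∈ Finset.range (k + 1),
              (1 + 3 * ((a i).val : ℤ)) ^ (f i).val) *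
              (1 + 3 * ((a (k + 1)).val : ℤ)) ^ (f (k + 1)).val) - 1 =
              (Algebra.norm ℤ D * Algebra.norm ℤ (j z) ^ (f (k + 1)).val *
                ∏ i ∈ Finset.range (k + 1), (1 + 3 * ((a i).val : ℤ)) ^ (f i).val - 1) -
              (Algebra.norm ℤ D * ∏ i ∈ Finset.range (k + 1),
                (1 + 3 * ((a i).val : ℤ)) ^ (f i).val) *
              (Algebra.norm ℤ (j z) ^ (f (k + 1)).val -
              (1 + 3 * ((a (k + 1)).val : ℤ)) ^ (f (k + 1)).val) := by ring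
          rw [e1]
          exact dvd_sub h9 (p2.mul_left _))).2
        show it a f T (k + 1) (D * (j z) ^ (f (k + 1)).val) = _
        rw [h4, SM_cons])
    have h2 : ∑ x : Fin n → ZMod 3, EE k (bord (SM e χ) 0 (fun l => f (k + 1) * e l * x l)) G =
        ∑ b : Fin n → ZMod 3, EE k (bord (SM e χ) 0 b) G := by
      refine Fintype.sum_bijective (fun x : Fin n → ZMod 3 => fun l => f (k + 1) * e l * x l) ?_ _ _
        fun x => rfl
      have hinj : Function.Injective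
          (fun x : Fin n → ZMod 3 => fun l => f (k + 1) * e l * x l) := by
        intro x x' hx
        funext l
        exact mul_left_cancel₀ (mul_ne_zero (hf (k + 1)) (hdt.e0 l)) (congrFun hx l)
      exact Finite.injective_iff_bijective.1 hinj
    rw [h2] at h1
    exact ⟨h1, h1.limUnder_eq⟩

/-! ### the mean order -/

theorem UU_three (r : ℕ) : UU (fun s => (3 : ℝ) ^ s) r = 3 ^ r * (1 / 3) + 4 / 3 := by
  unfold UU
  rcases r with _ | r
  · norm_num
  · rw [Nat.add_sub_cancel]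
    have h0 : (3 : ℝ) ^ r ≠ 0 := by positivity
    rw [one_div, inv_pow, inv_pow]
    simp only [pow_succ]
    field_simp
    ring

theorem EE_three (k : ℕ) {n : ℕ} {A : Matrix (Fin n) (Fin n) (ZMod 3)} (hA : A.IsSymm) :
    EE k A (fun s => (3 : ℝ) ^ s) = 2 + (EE 0 A (fun s => (3 : ℝ) ^ s) - 2) / 3 ^ k := by
  induction k with
  | zero => simp
  | succ k ih =>
    rw [EE_step k hA]
    have h1 : UU (fun s => (3 : ℝ) ^ s) = fun r => (1 / 3) * 3 ^ r + (4 / 3) * 1 := by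
      funext r
      rw [UU_three]
      ring
    rw [h1, EE_add, EE_smul, EE_smul, EE_one, ih, pow_succ]
    ring

end

end Pool.Agent.U687.MC
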