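import Pool.Agent.U687.MC.Border
import Pool.Agent.U687.KT.SelLaw

/-!
# The Markov chain of the coranks
-/

set_option autoImplicit false
set_option linter.unusedSectionVars false

open scoped Classical

namespace Pool.Agent.U687.MC

open Finset Matrix Filter Topology
open Pool.Agent.U687.KT (card_ker shr)

variable {n : ℕ}

/-- the corank -/
noncomputable def cor (M : Matrix (Fin n) (Fin n) (ZMod 3)) : ℕ := n - M.rank

theorem cor_rank (M : Matrix (Fin n) (Fin n) (ZMod 3)) : cor M + M.rank = n := by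
  have := (card_ker M).2
  unfold cor
  omega

theorem kc_eq (M : Matrix (Fin n) (Fin n) (ZMod 3)) : kc M = 3 ^ cor M := (card_ker M).1

theorem pow_inj {a b : ℕ} (h : 3 ^ a = 3 ^ b) : a = b :=
  Nat.pow_right_injective (by norm_num : 2 ≤ 3) h

theorem cor_out {M : Matrix (Fin n) (Fin n) (ZMod 3)} (hM : M.IsSymm) (c : ZMod 3)
    {b : Fin n → ZMod 3} (hb : ¬ ∃ u, M *ᵥ u = b) : cor (bord M c b) = cor M - 1 := by
  have h := kc_out hM c hb
  rw [kc_eq, kc_eq, ← pow_succ'] at h
  have := pow_inj h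
  omega

theorem cor_in {M : Matrix (Fin n) (Fin n) (ZMod 3)} (hM : M.IsSymm) {c : ZMod 3}
    (u : Fin n → ZMod 3) (hc : c ≠ (M *ᵥ u) ⬝ᵥ u) : cor (bord M c (M *ᵥ u)) = cor M := by
  have h := kc_in hM u hc
  rw [kc_eq, kc_eq] at h
  exact pow_inj h

theorem cor_up {M : Matrix (Fin n) (Fin n) (ZMod 3)} (hM : M.IsSymm)
    (u : Fin n → ZMod 3) : cor (bord M ((M *ᵥ u) ⬝ᵥ u) (M *ᵥ u)) = cor M + 1 := by
  have h := kc_up hM u
  rw [kc_eq, kc_eq, ← pow_succ'] at h
  exact pow_inj h

/-- the number of the vectors in the image -/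
theorem card_img (M : Matrix (Fin n) (Fin n) (ZMod 3)) :
    (Finset.univ.filter fun b : Fin n → ZMod 3 => ∃ u, M *ᵥ u = b).card = 3 ^ M.rank := by
  have h1 : Nat.card (LinearMap.range M.mulVecLin) =
      3 ^ Module.finrank (ZMod 3) (LinearMap.range M.mulVecLin) := by
    rw [Module.natCard_eq_pow_finrank (K := ZMod 3), Nat.card_zmod]
  have h2 : Module.finrank (ZMod 3) (LinearMap.range M.mulVecLin) = M.rank := rfl
  rw [h2] at h1
  rw [← h1, ← Fintype.card_subtype, ← Nat.card_eq_fintype_card]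
  exact Nat.card_congr (Equiv.subtypeEquivRight fun b => by
    rw [LinearMap.mem_range]
    simp only [Matrix.mulVecLin_apply])

/-- the backward operator -/
noncomputable def UU (G : ℕ → ℝ) (r : ℕ) : ℝ :=
  (1 - (1 / 3) ^ r) * G (r - 1) + (1 / 3) ^ (r + 1) * (2 * G r + G (r + 1))

theorem sum_c (a : ZMod 3) (x y : ℝ) : ∑ c : ZMod 3, (if c = a then x else y) = x + 2 * y := by
  rw [show (Finset.univ : Finset (ZMod 3)) = {0, 1, 2} from by decide,
    Finset.sum_insert (by decide), Finset.sum_insert (by decide), Finset.sum_singleton]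
  have h : a = 0 ∨ a = 1 ∨ a = 2 := by
    revert a
    decide
  rcases h with rfl | rfl | rfl
  · rw [if_pos rfl, if_neg (by decide), if_neg (by decide)]
    ring
  · rw [if_neg (by decide), if_pos rfl, if_neg (by decide)]
    ring
  · rw [if_neg (by decide), if_neg (by decide), if_pos rfl]
    ring

/-- **one step** -/
theorem step {M : Matrix (Fin n) (Fin n) (ZMod 3)} (hM : M.IsSymm) (G : ℕ → ℝ) :
    (∑ b : Fin n → ZMod 3, ∑ c : ZMod 3, G (cor (bord M c b))) / 3 ^ (n + 1) = UU G (cor M) := by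
  have h1 : ∀ b : Fin n → ZMod 3, ∑ c : ZMod 3, G (cor (bord M c b)) =
      if ∃ u, M *ᵥ u = b then G (cor M + 1) + 2 * G (cor M) else 3 * G (cor M - 1) := by
    intro b
    split_ifs with hb
    · obtain ⟨u, rfl⟩ := hb
      rw [← sum_c ((M *ᵥ u) ⬝ᵥ u)]
      refine Finset.sum_congr rfl fun c _ => ?_
      split_ifs with hc
      · rw [hc, cor_up hM]
      · rw [cor_in hM u hc]
    · rw [Finset.sum_congr rfl fun c _ => by rw [cor_out hM c hb], Finset.sum_const,
        Finset.card_univ, ZMod.card, nsmul_eq_mul]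
      norm_num
  rw [Finset.sum_congr rfl fun b _ => h1 b, Finset.sum_ite, Finset.sum_const, Finset.sum_const,
    card_img]
  have h2 : (Finset.univ.filter fun b : Fin n → ZMod 3 => ¬ ∃ u, M *ᵥ u = b).card +
      3 ^ M.rank = 3 ^ n := by
    have h3 := Finset.card_filter_add_card_filter_not (s := (Finset.univ : Finset (Fin n → ZMod 3)))
      (fun b => ∃ u, M *ᵥ u = b)
    rw [card_img, Finset.card_univ, Fintype.card_fun, Fintype.card_fin, ZMod.card] at h3
    omega
  have h4 : ((Finset.univ.filter fun b : Fin n → ZMod 3 => ¬ ∃ u, M *ᵥ u = b).card : ℝ) =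
      3 ^ n - 3 ^ M.rank := by
    have : ((Finset.univ.filter fun b : Fin n → ZMod 3 => ¬ ∃ u, M *ᵥ u = b).card : ℝ) +
      3 ^ M.rank = 3 ^ n := by exact_mod_cast h2
    linarith
  rw [nsmul_eq_mul, nsmul_eq_mul, h4]
  push_cast
  have h5 : (3 : ℝ) ^ n = 3 ^ cor M * 3 ^ M.rank := by rw [← pow_add, cor_rank]
  unfold UU
  rw [pow_succ (3 : ℝ) n, h5, pow_succ (1 / 3 : ℝ), div_pow, one_pow]
  have h6 : (3 : ℝ) ^ cor M ≠ 0 := by positivity
  have h7 : (3 : ℝ) ^ M.rank ≠ 0 := by positivity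
  field_simp
  ring

theorem bord_symm {M : Matrix (Fin n) (Fin n) (ZMod 3)} (hM : M.IsSymm) (c : ZMod 3)
    (b : Fin n → ZMod 3) : (bord M c b).IsSymm := by
  ext j k
  rw [Matrix.transpose_apply]
  refine Fin.cases ?_ (fun j => ?_) j
  · refine Fin.cases rfl (fun k => rfl) k
  · refine Fin.cases rfl (fun k => ?_) k
    show M k j = M j k
    exact congrFun (congrFun hM j) k

theorem diag_symm {M : Matrix (Fin n) (Fin n) (ZMod 3)} (hM : M.IsSymm) (y : Fin n → ZMod 3) :
    (M + diagonal y).IsSymm := by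
  unfold Matrix.IsSymm
  rw [Matrix.transpose_add, Matrix.diagonal_transpose, hM.eq]

theorem bord_diag (M : Matrix (Fin n) (Fin n) (ZMod 3)) (c : ZMod 3) (b y : Fin n → ZMod 3) :
    bord M 0 b + diagonal (Fin.cons c y : Fin (n + 1) → ZMod 3) = bord (M + diagonal y) c b := by
  ext j k
  rw [Matrix.add_apply, Matrix.diagonal_apply]
  refine Fin.cases ?_ (fun j => ?_) j
  · refine Fin.cases ?_ (fun k => ?_) k
    · show (0 : ZMod 3) + (if (0 : Fin (n + 1)) = 0 then c else 0) = c
      rw [if_pos rfl, zero_add]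
    · show b k + (if (0 : Fin (n + 1)) = k.succ then c else 0) = b k
      rw [if_neg (Fin.succ_ne_zero k).symm, add_zero]
  · refine Fin.cases ?_ (fun k => ?_) k
    · show b j + (if j.succ = (0 : Fin (n + 1)) then y j else 0) = b j
      rw [if_neg (Fin.succ_ne_zero j), add_zero]
    · show M j k + (if j.succ = k.succ then y j else 0) = (M + diagonal y) j k
      rw [Matrix.add_apply, Matrix.diagonal_apply]
      simp only [Fin.succ_inj]

theorem sum_cons (F : (Fin (n + 1) → ZMod 3) → ℝ) :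
    ∑ Y, F Y = ∑ c : ZMod 3, ∑ y : Fin n → ZMod 3, F (Fin.cons c y) := by
  rw [← Fintype.sum_prod_type']
  refine (Fintype.sum_equiv (Fin.consEquiv fun _ : Fin (n + 1) => ZMod 3) _ _ fun x => ?_).symm
  rfl

/-- the mean of `G` of the corank after `k` new rows -/
noncomputable def EE : (k : ℕ) → {n : ℕ} → Matrix (Fin n) (Fin n) (ZMod 3) → (ℕ → ℝ) → ℝ
  | 0, n, A, G => (∑ y : Fin n → ZMod 3, G (cor (A + diagonal y))) / 3 ^ n
  | k + 1, n, A, G => (∑ x : Fin n → ZMod 3, EE k (bord A 0 x) G) / 3 ^ n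

theorem EE_step (k : ℕ) : ∀ {n : ℕ} {A : Matrix (Fin n) (Fin n) (ZMod 3)}, A.IsSymm →
    ∀ G : ℕ → ℝ, EE (k + 1) A G = EE k A (UU G) := by
  induction k with
  | zero =>
    intro n A hA G
    show (∑ x : Fin n → ZMod 3, (∑ Y : Fin (n + 1) → ZMod 3,
      G (cor (bord A 0 x + diagonal Y))) / 3 ^ (n + 1)) / 3 ^ n =
      (∑ y : Fin n → ZMod 3, UU G (cor (A + diagonal y))) / 3 ^ n
    congr 1
    rw [← Finset.sum_div]
    simp only [sum_cons, bord_diag]
    have h1 : ∀ y : Fin n → ZMod 3, UU G (cor (A + diagonal y)) =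
        (∑ b : Fin n → ZMod 3, ∑ c : ZMod 3, G (cor (bord (A + diagonal y) c b))) / 3 ^ (n + 1) :=
      fun y => (step (diag_symm hA y) G).symm
    rw [Finset.sum_congr rfl fun y _ => h1 y, ← Finset.sum_div]
    congr 1
    rw [Finset.sum_comm' (s := Finset.univ) (t := fun _ => Finset.univ) (s' := fun _ => Finset.univ)
      (t' := Finset.univ) (by simp)]
    rw [Finset.sum_comm' (s := Finset.univ) (t := fun _ => Finset.univ) (s' := fun _ => Finset.univ)
      (t' := Finset.univ) (f := fun y b => ∑ c : ZMod 3, G (cor (bord (A + diagonal y) c b)))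
      (by simp)]
    rw [Finset.sum_comm]
    refine Finset.sum_congr rfl fun b _ => ?_
    rw [Finset.sum_comm]
  | succ k ih =>
    intro n A hA G
    show (∑ x : Fin n → ZMod 3, EE (k + 1) (bord A 0 x) G) / 3 ^ n =
      (∑ x : Fin n → ZMod 3, EE k (bord A 0 x) (UU G)) / 3 ^ n
    congr 1
    exact Finset.sum_congr rfl fun x _ => ih (bord_symm hA 0 x) G

end Pool.Agent.U687.MC
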