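import Pool.Agent.U687.MC.Chain
import Pool.Agent.R419.KL.Fin

/-!
# Convergence of the Markov chain of the coranks
-/

set_option autoImplicit false
set_option linter.unusedSectionVars false

open scoped Classical

namespace Pool.Agent.U687.MC

open Finset Matrix Filter Topology
open Pool.Agent.U687.KT (card_ker shr)

/-! ### linearity -/

theorem EE_add (k : ℕ) : ∀ {n : ℕ} (A : Matrix (Fin n) (Fin n) (ZMod 3)) (G H : ℕ → ℝ),
    EE k A (fun r => G r + H r) = EE k A G + EE k A H := by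
  induction k with
  | zero =>
    intro n A G H
    show (∑ y : Fin n → ZMod 3, (G (cor (A + diagonal y)) + H (cor (A + diagonal y)))) / 3 ^ n = _
    rw [Finset.sum_add_distrib, add_div]
    rfl
  | succ k ih =>
    intro n A G H
    show (∑ x : Fin n → ZMod 3, EE k (bord A 0 x) (fun r => G r + H r)) / 3 ^ n = _
    rw [Finset.sum_congr rfl fun x _ => ih (bord A 0 x) G H, Finset.sum_add_distrib, add_div]
    rfl

theorem EE_smul (k : ℕ) : ∀ {n : ℕ} (A : Matrix (Fin n) (Fin n) (ZMod 3)) (c : ℝ) (G : ℕ → ℝ),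
    EE k A (fun r => c * G r) = c * EE k A G := by
  induction k with
  | zero =>
    intro n A c G
    show (∑ y : Fin n → ZMod 3, c * G (cor (A + diagonal y))) / 3 ^ n = _
    rw [← Finset.mul_sum, mul_div_assoc]
    rfl
  | succ k ih =>
    intro n A c G
    show (∑ x : Fin n → ZMod 3, EE k (bord A 0 x) (fun r => c * G r)) / 3 ^ n = _
    rw [Finset.sum_congr rfl fun x _ => ih (bord A 0 x) c G, ← Finset.mul_sum, mul_div_assoc]
    rfl

theorem EE_congr (k : ℕ) : ∀ {n : ℕ} (A : Matrix (Fin n) (Fin n) (ZMod 3)) {G H : ℕ → ℝ},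
    (∀ r ≤ n + k, G r = H r) → EE k A G = EE k A H := by
  induction k with
  | zero =>
    intro n A G H h
    show (∑ y : Fin n → ZMod 3, G (cor (A + diagonal y))) / 3 ^ n =
      (∑ y : Fin n → ZMod 3, H (cor (A + diagonal y))) / 3 ^ n
    congr 1
    refine Finset.sum_congr rfl fun y _ => h _ ?_
    have := cor_rank (A + diagonal y)
    omega
  | succ k ih =>
    intro n A G H h
    show (∑ x : Fin n → ZMod 3, EE k (bord A 0 x) G) / 3 ^ n =
      (∑ x : Fin n → ZMod 3, EE k (bord A 0 x) H) / 3 ^ n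
    congr 1
    exact Finset.sum_congr rfl fun x _ => ih (bord A 0 x) fun r hr => h r (by omega)

theorem EE_one (k : ℕ) : ∀ {n : ℕ} (A : Matrix (Fin n) (Fin n) (ZMod 3)),
    EE k A (fun _ => 1) = 1 := by
  induction k with
  | zero =>
    intro n A
    show (∑ y : Fin n → ZMod 3, (1 : ℝ)) / 3 ^ n = 1
    rw [Finset.sum_const, Finset.card_univ, Fintype.card_fun, Fintype.card_fin, ZMod.card,
      nsmul_eq_mul, mul_one]
    push_cast
    exact div_self (by positivity)
  | succ k ih =>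
    intro n A
    show (∑ x : Fin n → ZMod 3, EE k (bord A 0 x) (fun _ => 1)) / 3 ^ n = 1
    rw [Finset.sum_congr rfl fun x _ => ih (bord A 0 x), Finset.sum_const, Finset.card_univ,
      Fintype.card_fun, Fintype.card_fin, ZMod.card, nsmul_eq_mul, mul_one]
    push_cast
    exact div_self (by positivity)

theorem EE_nonneg (k : ℕ) : ∀ {n : ℕ} (A : Matrix (Fin n) (Fin n) (ZMod 3)) {G : ℕ → ℝ},
    (∀ r, 0 ≤ G r) → 0 ≤ EE k A G := by
  induction k with
  | zero =>
    intro n A G h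
    show 0 ≤ (∑ y : Fin n → ZMod 3, G (cor (A + diagonal y))) / 3 ^ n
    exact div_nonneg (Finset.sum_nonneg fun y _ => h _) (by positivity)
  | succ k ih =>
    intro n A G h
    show 0 ≤ (∑ x : Fin n → ZMod 3, EE k (bord A 0 x) G) / 3 ^ n
    exact div_nonneg (Finset.sum_nonneg fun x _ => ih _ h) (by positivity)

/-- the point mass -/
noncomputable def pt (r s : ℕ) : ℝ := if s = r then 1 else 0

/-- the distribution of the corank after `k` new rows -/
noncomputable def dd (k : ℕ) {n : ℕ} (A : Matrix (Fin n) (Fin n) (ZMod 3)) (r : ℕ) : ℝ :=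
  EE k A (pt r)

theorem dd_zero {n : ℕ} (A : Matrix (Fin n) (Fin n) (ZMod 3)) (r : ℕ) : dd 0 A r = shr A r := by
  show (∑ y : Fin n → ZMod 3, pt r (cor (A + diagonal y))) / 3 ^ n = _
  unfold shr
  congr 1
  rw [Nat.card_eq_fintype_card, Fintype.card_subtype, ← Finset.sum_boole]
  refine Finset.sum_congr rfl fun y _ => ?_
  have h := cor_rank (A + diagonal y)
  unfold pt
  by_cases h1 : cor (A + diagonal y) = r
  · rw [if_pos h1, if_pos (by omega)]
  · rw [if_neg h1, if_neg (by omega)]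

theorem dd_nonneg (k : ℕ) {n : ℕ} (A : Matrix (Fin n) (Fin n) (ZMod 3)) (r : ℕ) :
    0 ≤ dd k A r := EE_nonneg k A fun s => by unfold pt; split_ifs <;> norm_num

theorem EE_sum (k : ℕ) {n : ℕ} (A : Matrix (Fin n) (Fin n) (ZMod 3)) (S : Finset ℕ)
    (G : ℕ → ℕ → ℝ) : EE k A (fun s => ∑ r ∈ S, G r s) = ∑ r ∈ S, EE k A (G r) := by
  induction S using Finset.induction_on with
  | empty =>
    simp only [Finset.sum_empty]
    have := EE_smul k A 0 (fun _ => 0)
    simpa using this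
  | insert a S ha ih =>
    simp only [Finset.sum_insert ha]
    rw [EE_add, ih]

theorem dd_sum (k : ℕ) {n : ℕ} (A : Matrix (Fin n) (Fin n) (ZMod 3)) {m : ℕ} (hm : n + k < m) :
    ∑ r ∈ Finset.range m, dd k A r = 1 := by
  unfold dd
  rw [← EE_sum, ← EE_one k A]
  refine EE_congr k A fun s hs => ?_
  unfold pt
  rw [Finset.sum_ite_eq]
  rw [if_pos (Finset.mem_range.2 (by omega))]

/-- the forward operator -/
noncomputable def TT (μ : ℕ → ℝ) (r : ℕ) : ℝ :=
  (1 - (1 / 3) ^ (r + 1)) * μ (r + 1) + 2 * (1 / 3) ^ (r + 1) * μ r +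
    (if r = 0 then 0 else (1 / 3) ^ r * μ (r - 1))

theorem UU_pt (r s : ℕ) : UU (pt r) s =
    (1 - (1 / 3) ^ (r + 1)) * pt (r + 1) s + 2 * (1 / 3) ^ (r + 1) * pt r s +
      (if r = 0 then 0 else (1 / 3) ^ r * pt (r - 1) s) := by
  unfold UU pt
  rcases Nat.eq_zero_or_pos s with rfl | hs
  · rcases Nat.eq_zero_or_pos r with rfl | hr
    · simp
      norm_num
    · rw [if_neg (by omega : ¬ (0 = r)), if_neg (by omega : ¬ (0 = r + 1)),
        if_neg (by omega : ¬ (r = 0))]
      by_cases h : r = 1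
      · subst h
        simp
      · rw [if_neg (by omega : ¬ (0 + 1 = r)), if_neg (by omega : ¬ (0 = r - 1))]
        ring
  · by_cases h1 : s = r + 1
    · subst h1
      rw [if_pos (by omega : r + 1 - 1 = r), if_neg (by omega : ¬ (r + 1 = r)),
        if_neg (by omega : ¬ (r + 1 + 1 = r)), if_pos rfl]
      split_ifs with h2 h3
      · ring
      · omega
      · ring
    · by_cases h2 : s = r
      · subst h2
        rw [if_neg (by omega : ¬ (s - 1 = s)), if_pos rfl, if_neg (by omega : ¬ (s + 1 = s)),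
          if_neg h1, if_neg (by omega : ¬ (s = 0)), if_neg (by omega : ¬ (s = s - 1))]
        ring
      · by_cases h3 : s + 1 = r
        · subst h3
          rw [if_neg (by omega : ¬ (s - 1 = s + 1)), if_neg h2, if_pos rfl, if_neg h1,
            if_neg (by omega : ¬ (s + 1 = 0)), if_pos (by omega : s = s + 1 - 1)]
          ring
        · rw [if_neg (by omega : ¬ (s - 1 = r)), if_neg h2, if_neg h3, if_neg h1]
          split_ifs with h4 h5
          · ring
          · omega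
          · ring

/-- **the recursion** -/
theorem dd_succ (k : ℕ) {n : ℕ} {A : Matrix (Fin n) (Fin n) (ZMod 3)} (hA : A.IsSymm) (r : ℕ) :
    dd (k + 1) A r = TT (dd k A) r := by
  unfold dd TT
  rw [EE_step k hA (pt r)]
  have h1 : UU (pt r) = fun s => ((1 - (1 / 3) ^ (r + 1)) * pt (r + 1) s +
      2 * (1 / 3) ^ (r + 1) * pt r s) + (if r = 0 then 0 else (1 / 3) ^ r * pt (r - 1) s) :=
    funext fun s => UU_pt r s
  rw [h1, EE_add, EE_add, EE_smul, EE_smul]
  congr 1
  by_cases hr : r = 0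
  · simp only [if_pos hr]
    have := EE_smul k A 0 (fun _ => 0)
    simpa using this
  · simp only [if_neg hr]
    rw [EE_smul]

/-! ### cumulative sums -/

theorem cum_TT (μ : ℕ → ℝ) (r : ℕ) : ∑ s ∈ Finset.range (r + 1), TT μ s =
    (1 - (1 / 3) ^ (r + 1)) * ∑ s ∈ Finset.range (r + 2), μ s +
      (1 / 3) ^ (r + 1) * ∑ s ∈ Finset.range r, μ s := by
  induction r with
  | zero =>
    unfold TT
    simp [Finset.sum_range_succ]
    ring
  | succ r ih =>
    rw [Finset.sum_range_succ, ih]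
    unfold TT
    rw [if_neg (Nat.succ_ne_zero r), Nat.add_sub_cancel]
    rw [Finset.sum_range_succ μ (r + 2), Finset.sum_range_succ μ (r + 1), Finset.sum_range_succ μ r]
    ring

/-- the contraction -/
theorem contract {μ ν : ℕ → ℝ} {B : ℝ}
    (h : ∀ r, |∑ s ∈ Finset.range r, μ s - ∑ s ∈ Finset.range r, ν s| ≤ B / 2 ^ r) (r : ℕ) :
    |∑ s ∈ Finset.range r, TT μ s - ∑ s ∈ Finset.range r, TT ν s| ≤ (2 / 3 * B) / 2 ^ r := by
  have hB : 0 ≤ B := by
    have := h 0
    simp at this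
    exact this
  rcases r with _ | r
  · simp
    positivity
  rw [cum_TT, cum_TT]
  have e1 : (1 - (1 / 3) ^ (r + 1)) * ∑ s ∈ Finset.range (r + 2), μ s +
      (1 / 3) ^ (r + 1) * ∑ s ∈ Finset.range r, μ s -
      ((1 - (1 / 3) ^ (r + 1)) * ∑ s ∈ Finset.range (r + 2), ν s +
      (1 / 3) ^ (r + 1) * ∑ s ∈ Finset.range r, ν s) =
      (1 - (1 / 3) ^ (r + 1)) * (∑ s ∈ Finset.range (r + 2), μ s -
        ∑ s ∈ Finset.range (r + 2), ν s) +
      (1 / 3) ^ (r + 1) * (∑ s ∈ Finset.range r, μ s - ∑ s ∈ Finset.range r, ν s) := by ring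
  rw [e1]
  have hp : (0 : ℝ) ≤ (1 / 3) ^ (r + 1) := by positivity
  have hp1 : ((1 / 3 : ℝ)) ^ (r + 1) ≤ 1 := pow_le_one₀ (by norm_num) (by norm_num)
  have h1 := h (r + 2)
  have h2 := h r
  have h3 : |(1 - (1 / 3 : ℝ) ^ (r + 1)) * (∑ s ∈ Finset.range (r + 2), μ s -
        ∑ s ∈ Finset.range (r + 2), ν s)| ≤ (1 - (1 / 3) ^ (r + 1)) * (B / 2 ^ (r + 2)) := by
    rw [abs_mul, abs_of_nonneg (by linarith : (0 : ℝ) ≤ 1 - (1 / 3) ^ (r + 1))]
    exact mul_le_mul_of_nonneg_left h1 (by linarith)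
  have h4 : |(1 / 3 : ℝ) ^ (r + 1) * (∑ s ∈ Finset.range r, μ s - ∑ s ∈ Finset.range r, ν s)| ≤
      if r = 0 then 0 else (1 / 3) ^ (r + 1) * (B / 2 ^ r) := by
    split_ifs with hr
    · subst hr
      simp
    · rw [abs_mul, abs_of_nonneg hp]
      exact mul_le_mul_of_nonneg_left h2 hp
  refine (abs_add_le _ _).trans ((add_le_add h3 h4).trans ?_)
  split_ifs with hr
  · subst hr
    norm_num
    linarith
  · obtain ⟨m, rfl⟩ : ∃ m, r = m + 1 := ⟨r - 1, by omega⟩
    have h5 : (1 / 3 : ℝ) ^ (m + 1 + 1) ≤ 1 / 9 := by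
      have : (1 / 3 : ℝ) ^ (m + 1 + 1) = (1 / 3) ^ m * (1 / 9) := by ring
      rw [this]
      have h6 : (1 / 3 : ℝ) ^ m ≤ 1 := pow_le_one₀ (by norm_num) (by norm_num)
      nlinarith
    have h7 : (0 : ℝ) < 2 ^ (m + 1) := by positivity
    have e2 : (1 - (1 / 3 : ℝ) ^ (m + 1 + 1)) * (B / 2 ^ (m + 1 + 2)) +
        (1 / 3) ^ (m + 1 + 1) * (B / 2 ^ (m + 1)) =
        (1 / 4 + 3 / 4 * (1 / 3) ^ (m + 1 + 1)) * (B / 2 ^ (m + 1)) := by
      rw [pow_add (2 : ℝ) (m + 1) 2]
      field_simp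
      ring
    have e3 : 2 / 3 * B / 2 ^ (m + 1 + 1) = 1 / 3 * (B / 2 ^ (m + 1)) := by
      rw [pow_succ (2 : ℝ) (m + 1)]
      field_simp
    rw [e2, e3]
    refine mul_le_mul_of_nonneg_right ?_ (by positivity)
    linarith

/-! ### the limit law -/

/-- the limit law -/
noncomputable def prob (r : ℕ) : ℝ :=
  (∏' i : ℕ, (1 - (1 / 3 : ℝ) ^ (2 * i + 1))) / ∏ i ∈ Finset.range r, ((3 : ℝ) ^ (i + 1) - 1)

theorem pow3_pos (r : ℕ) : (0 : ℝ) < (3 : ℝ) ^ (r + 1) - 1 := by
  have : (1 : ℝ) < 3 ^ (r + 1) := one_lt_pow₀ (by norm_num) (by omega)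
  linarith

theorem prob_succ (r : ℕ) : prob r = ((3 : ℝ) ^ (r + 1) - 1) * prob (r + 1) := by
  unfold prob
  rw [Finset.prod_range_succ]
  have h1 := (pow3_pos r).ne'
  have h2 : (∏ i ∈ Finset.range r, ((3 : ℝ) ^ (i + 1) - 1)) ≠ 0 :=
    Finset.prod_ne_zero_iff.2 fun i _ => (pow3_pos i).ne'
  field_simp

theorem TT_prob (r : ℕ) : TT prob r = prob r := by
  unfold TT
  have h0 : (3 : ℝ) ^ (r + 1) ≠ 0 := by positivity
  have h1 : (1 - (1 / 3 : ℝ) ^ (r + 1)) * prob (r + 1) = (1 / 3) ^ (r + 1) * prob r := by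
    rw [prob_succ r, one_div, inv_pow]
    field_simp
  rw [h1]
  rcases r with _ | r
  · rw [if_pos rfl]
    norm_num
    ring
  · rw [if_neg (Nat.succ_ne_zero r), Nat.add_sub_cancel]
    have h2 : (1 / 3 : ℝ) ^ (r + 1) * prob r = (1 - (1 / 3) ^ (r + 1)) * prob (r + 1) := by
      rw [prob_succ r, one_div, inv_pow]
      have h3 : (3 : ℝ) ^ (r + 1) ≠ 0 := by positivity
      field_simp
    rw [h2, pow_succ (1 / 3 : ℝ) (r + 1)]
    ring

theorem prob_pos (r : ℕ) : 0 < prob r := Pool.Agent.R419.KL.prob_facts.1 r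

theorem prob_hasSum : HasSum prob 1 := Pool.Agent.R419.KL.prob_facts.2.2.2

theorem prob_half (r : ℕ) : prob (r + 1) ≤ prob r / 2 := by
  have h1 := prob_succ r
  have h2 : (2 : ℝ) ≤ 3 ^ (r + 1) - 1 := by
    have : (3 : ℝ) ^ 1 ≤ 3 ^ (r + 1) := pow_le_pow_right₀ (by norm_num) (by omega)
    linarith
  have h3 := prob_pos (r + 1)
  nlinarith

theorem prob_le (r : ℕ) : prob r ≤ 1 / 2 ^ r := by
  induction r with
  | zero =>
    have := Pool.Agent.R419.KL.prob_facts.2.2.1
    have h : prob 0 < 0.6391 := this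
    norm_num
    linarith
  | succ r ih =>
    refine (prob_half r).trans ?_
    rw [pow_succ]
    have : (1 : ℝ) / (2 ^ r * 2) = 1 / 2 ^ r / 2 := by ring
    rw [this]
    linarith

theorem prob_tail (r m : ℕ) : ∑ s ∈ Finset.range (r + m), prob s - ∑ s ∈ Finset.range r, prob s ≤
    2 * prob r - 2 * prob (r + m) := by
  induction m with
  | zero => simp
  | succ m ih =>
    rw [← add_assoc, Finset.sum_range_succ]
    have := prob_half (r + m)
    linarith

theorem prob_cum (r : ℕ) : 0 ≤ 1 - ∑ s ∈ Finset.range r, prob s ∧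
    1 - ∑ s ∈ Finset.range r, prob s ≤ 2 / 2 ^ r := by
  constructor
  · have := sum_le_hasSum (Finset.range r) (fun s _ => (prob_pos s).le) prob_hasSum
    linarith
  · have h1 : Tendsto (fun m : ℕ => ∑ s ∈ Finset.range (r + m), prob s) atTop (𝓝 1) := by
      have := prob_hasSum.tendsto_sum_nat
      exact this.comp (tendsto_add_atTop_nat r |>.congr fun m => by rw [add_comm])
    have h2 : ∀ m : ℕ, ∑ s ∈ Finset.range (r + m), prob s ≤
        ∑ s ∈ Finset.range r, prob s + 2 / 2 ^ r := by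
      intro m
      have h3 := prob_tail r m
      have h4 := prob_pos (r + m)
      have h5 := prob_le r
      have h6 : (2 : ℝ) / 2 ^ r = 2 * (1 / 2 ^ r) := by ring
      rw [h6]
      linarith
    have h7 := le_of_tendsto' h1 h2
    linarith

/-- **exponential convergence** -/
theorem conv_cum (k : ℕ) {n : ℕ} {A : Matrix (Fin n) (Fin n) (ZMod 3)} (hA : A.IsSymm) (r : ℕ) :
    |∑ s ∈ Finset.range r, dd k A s - ∑ s ∈ Finset.range r, prob s| ≤
      ((2 / 3) ^ k * (2 ^ n + 1)) / 2 ^ r := by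
  induction k generalizing r with
  | zero =>
    rw [pow_zero, one_mul]
    obtain ⟨h1, h2⟩ := prob_cum r
    have hp : (0 : ℝ) ≤ ∑ s ∈ Finset.range r, prob s := Finset.sum_nonneg fun s _ => (prob_pos s).le
    have h3 : 0 ≤ ∑ s ∈ Finset.range r, dd 0 A s := Finset.sum_nonneg fun s _ => dd_nonneg 0 A s
    have h4 : ∑ s ∈ Finset.range r, dd 0 A s ≤ 1 := by
      rw [← dd_sum 0 A (m := max r (n + 1)) (by omega)]
      exact Finset.sum_le_sum_of_subset_of_nonneg
        (Finset.range_mono (le_max_left _ _)) fun s _ _ => dd_nonneg 0 A s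
    by_cases hr : r ≤ n
    · have h5 : (1 : ℝ) ≤ (2 ^ n + 1) / 2 ^ r := by
        rw [le_div_iff₀ (by positivity), one_mul]
        have : (2 : ℝ) ^ r ≤ 2 ^ n := pow_le_pow_right₀ (by norm_num) hr
        linarith
      refine le_trans ?_ h5
      rw [abs_le]
      constructor <;> linarith
    · rw [dd_sum 0 A (m := r) (by omega), abs_of_nonneg h1]
      refine h2.trans ?_
      gcongr
      have : (1 : ℝ) ≤ 2 ^ n := one_le_pow₀ (by norm_num)
      linarith
  | succ k ih =>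
    have h1 := contract (B := (2 / 3) ^ k * (2 ^ n + 1)) (μ := dd k A) (ν := prob) ih r
    have h2 : ∑ s ∈ Finset.range r, dd (k + 1) A s = ∑ s ∈ Finset.range r, TT (dd k A) s :=
      Finset.sum_congr rfl fun s _ => dd_succ k hA s
    have h3 : ∑ s ∈ Finset.range r, prob s = ∑ s ∈ Finset.range r, TT prob s :=
      Finset.sum_congr rfl fun s _ => (TT_prob s).symm
    rw [h2, h3]
    refine h1.trans (le_of_eq ?_)
    rw [pow_succ]
    ring

theorem conv (k : ℕ) {n : ℕ} {A : Matrix (Fin n) (Fin n) (ZMod 3)} (hA : A.IsSymm) (r : ℕ) :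
    |dd k A r - prob r| ≤ 3 / 2 * (2 ^ n + 1) * (2 / 3) ^ k / 2 ^ r := by
  have h1 := conv_cum k hA (r + 1)
  have h2 := conv_cum k hA r
  rw [Finset.sum_range_succ, Finset.sum_range_succ] at h1
  have e1 : dd k A r - prob r = (∑ s ∈ Finset.range r, dd k A s + dd k A r -
      (∑ s ∈ Finset.range r, prob s + prob r)) -
      (∑ s ∈ Finset.range r, dd k A s - ∑ s ∈ Finset.range r, prob s) := by ring
  rw [e1]
  refine (abs_sub _ _).trans ((add_le_add h1 h2).trans (le_of_eq ?_))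
  rw [pow_succ]
  field_simp
  ring

end Pool.Agent.U687.MC
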