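import Pool.Agent.U687.MC.Gen2

/-!
# The limit of the chain without symmetry
-/

set_option autoImplicit false
set_option linter.unusedSectionVars false

open scoped Classical

namespace Pool.Agent.U687.MC

open Finset Matrix Filter Topology

theorem third_pow_le (r : ℕ) : (1 / 3 : ℝ) ^ (r + 1) ≤ 1 / 3 ∧ 0 < (1 / 3 : ℝ) ^ (r + 1) := by
  refine ⟨?_, by positivity⟩
  calc (1 / 3 : ℝ) ^ (r + 1) ≤ (1 / 3) ^ 1 := pow_le_pow_of_le_one (by norm_num) (by norm_num)
        (by omega)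
    _ = 1 / 3 := pow_one _

theorem cum_T2 (μ : ℕ → ℝ) (r : ℕ) : ∑ s ∈ Finset.range (r + 1), T2 μ s =
    (1 - (1 / 3) ^ (r + 1)) ^ 2 * ∑ s ∈ Finset.range (r + 2), μ s +
      (1 - (1 - (1 / 3) ^ (r + 1)) ^ 2 - (1 / 3) ^ r * (1 / 3) ^ (r + 1)) *
        ∑ s ∈ Finset.range (r + 1), μ s +
      (1 / 3) ^ r * (1 / 3) ^ (r + 1) * ∑ s ∈ Finset.range r, μ s := by
  induction r with
  | zero =>
    unfold T2
    simp [Finset.sum_range_succ]
    ring
  | succ r ih =>
    rw [Finset.sum_range_succ, ih]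
    unfold T2
    rw [if_neg (Nat.succ_ne_zero r), Nat.add_sub_cancel]
    rw [Finset.sum_range_succ μ (r + 2), Finset.sum_range_succ μ (r + 1), Finset.sum_range_succ μ r]
    simp only [pow_succ]
    ring

theorem contract2 {μ ν : ℕ → ℝ} {B : ℝ}
    (h : ∀ r, |∑ s ∈ Finset.range r, μ s - ∑ s ∈ Finset.range r, ν s| ≤ B / 2 ^ r) (r : ℕ) :
    |∑ s ∈ Finset.range r, T2 μ s - ∑ s ∈ Finset.range r, T2 ν s| ≤ (2 / 3 * B) / 2 ^ r := by
  have hB : 0 ≤ B := by
    have := h 0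
    simp at this
    exact this
  rcases r with _ | r
  · simp
    positivity
  rw [cum_T2, cum_T2]
  obtain ⟨x, hx⟩ : ∃ x : ℝ, x = (1 / 3) ^ (r + 1) := ⟨_, rfl⟩
  have hx3 : (1 / 3 : ℝ) ^ r = 3 * x := by
    rw [hx, pow_succ]
    ring
  rw [hx3, ← hx]
  obtain ⟨hx1, hx0⟩ := third_pow_le r
  rw [← hx] at hx1 hx0
  set a2 := ∑ s ∈ Finset.range (r + 2), μ s - ∑ s ∈ Finset.range (r + 2), ν s with ha2
  set a1 := ∑ s ∈ Finset.range (r + 1), μ s - ∑ s ∈ Finset.range (r + 1), ν s with ha1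
  set a0 := ∑ s ∈ Finset.range r, μ s - ∑ s ∈ Finset.range r, ν s with ha0
  have e1 : (1 - x) ^ 2 * ∑ s ∈ Finset.range (r + 2), μ s +
      (1 - (1 - x) ^ 2 - 3 * x * x) * ∑ s ∈ Finset.range (r + 1), μ s +
      3 * x * x * ∑ s ∈ Finset.range r, μ s -
      ((1 - x) ^ 2 * ∑ s ∈ Finset.range (r + 2), ν s +
      (1 - (1 - x) ^ 2 - 3 * x * x) * ∑ s ∈ Finset.range (r + 1), ν s +
      3 * x * x * ∑ s ∈ Finset.range r, ν s) =
      (1 - x) ^ 2 * a2 + (2 * x - 4 * x ^ 2) * a1 + 3 * x ^ 2 * a0 := by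
    rw [ha2, ha1, ha0]
    ring
  rw [e1]
  have h2 := h (r + 2)
  have h1 := h (r + 1)
  have h0 := h r
  rw [← ha2] at h2
  rw [← ha1] at h1
  rw [← ha0] at h0
  obtain ⟨c, hc⟩ : ∃ c : ℝ, c = B / 2 ^ (r + 1) := ⟨_, rfl⟩
  have hc0 : 0 ≤ c := by rw [hc]; positivity
  have hc2 : B / 2 ^ (r + 2) = c / 2 := by
    rw [hc, pow_succ (2 : ℝ) (r + 1)]
    field_simp
  have hc1 : B / 2 ^ r = 2 * c := by
    rw [hc, pow_succ]
    field_simp
  have hgoal : 2 / 3 * B / 2 ^ (r + 1) = 2 / 3 * c := by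
    rw [hc]
    ring
  rw [hc2] at h2
  rw [← hc] at h1
  rw [hc1] at h0
  rw [hgoal]
  have hA : 0 ≤ (1 - x) ^ 2 := sq_nonneg _
  have hBB : 0 ≤ 2 * x - 4 * x ^ 2 := by nlinarith
  have hC : 0 ≤ 3 * x ^ 2 := by positivity
  have t2 : |(1 - x) ^ 2 * a2| ≤ (1 - x) ^ 2 * (c / 2) := by
    rw [abs_mul, abs_of_nonneg hA]
    exact mul_le_mul_of_nonneg_left h2 hA
  have t1 : |(2 * x - 4 * x ^ 2) * a1| ≤ (2 * x - 4 * x ^ 2) * c := by
    rw [abs_mul, abs_of_nonneg hBB]
    exact mul_le_mul_of_nonneg_left h1 hBB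
  have tt := abs_add_le ((1 - x) ^ 2 * a2 + (2 * x - 4 * x ^ 2) * a1) (3 * x ^ 2 * a0)
  have tt2 := abs_add_le ((1 - x) ^ 2 * a2) ((2 * x - 4 * x ^ 2) * a1)
  rcases Nat.eq_zero_or_pos r with hr | hr
  · have ha00 : a0 = 0 := by
      rw [ha0, hr]
      simp
    have hx' : x = 1 / 3 := by
      rw [hx, hr]
      norm_num
    have t0 : |3 * x ^ 2 * a0| = 0 := by
      rw [ha00]
      simp
    rw [hx'] at t2 t1
    rw [hx'] at tt tt2 t0 ⊢
    nlinarith
  · have hx9 : x ≤ 1 / 9 := by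
      rw [hx]
      calc (1 / 3 : ℝ) ^ (r + 1) ≤ (1 / 3) ^ 2 :=
            pow_le_pow_of_le_one (by norm_num) (by norm_num) (by omega)
        _ = 1 / 9 := by norm_num
    have t0 : |3 * x ^ 2 * a0| ≤ 3 * x ^ 2 * (2 * c) := by
      rw [abs_mul, abs_of_nonneg hC]
      exact mul_le_mul_of_nonneg_left h0 hC
    have hfin : (1 - x) ^ 2 * (c / 2) + (2 * x - 4 * x ^ 2) * c + 3 * x ^ 2 * (2 * c) ≤ 2 / 3 * c := by
      have h9 : (1 - x) ^ 2 * (c / 2) + (2 * x - 4 * x ^ 2) * c + 3 * x ^ 2 * (2 * c) =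
          c * (1 / 2 + x + 5 / 2 * x ^ 2) := by ring
      rw [h9, mul_comm (2 / 3) c]
      refine mul_le_mul_of_nonneg_left ?_ hc0
      nlinarith
    linarith

/-! ### the chain started at zero -/

/-- `∏_{i < k} (1 - 3^{-(i + 1)})` -/
noncomputable def pp (k : ℕ) : ℝ := ∏ i ∈ Finset.range k, (1 - (1 / 3 : ℝ) ^ (i + 1))

theorem fac_pos (i : ℕ) : 0 < 1 - (1 / 3 : ℝ) ^ (i + 1) := by
  have := (third_pow_le i).1
  linarith

theorem pp_pos (k : ℕ) : 0 < pp k := Finset.prod_pos fun i _ => fac_pos i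

theorem pp_succ (k : ℕ) : pp (k + 1) = pp k * (1 - (1 / 3) ^ (k + 1)) := Finset.prod_range_succ _ _

/-- the distribution of the corank of a random square matrix of size `k` -/
noncomputable def mk (k r : ℕ) : ℝ :=
  if r ≤ k then (1 / 3) ^ (r * r) * pp k ^ 2 / (pp r ^ 2 * pp (k - r)) else 0

theorem mk_of (r d : ℕ) : mk (r + d) r = (1 / 3) ^ (r * r) * pp (r + d) ^ 2 / (pp r ^ 2 * pp d) := by
  unfold mk
  rw [if_pos (Nat.le_add_right r d), Nat.add_sub_cancel_left]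

theorem mk_gt {k r : ℕ} (h : k < r) : mk k r = 0 := by
  unfold mk
  rw [if_neg (by omega)]

theorem pp_zero : pp 0 = 1 := Finset.prod_range_zero _

theorem T2_mk (k r : ℕ) : T2 (mk k) r = mk (k + 1) r := by
  rcases lt_or_ge (k + 1) r with h | h
  · -- beyond the support
    unfold T2
    rw [mk_gt (show k < r + 1 by omega), mk_gt (show k < r by omega), mk_gt h,
      if_neg (by omega), mk_gt (show k < r - 1 by omega)]
    ring
  obtain ⟨d, hd⟩ := Nat.exists_eq_add_of_le h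
  rcases r with _ | r
  · -- `r = 0`
    have hk : d = k + 1 := by omega
    subst hk
    unfold T2
    rw [if_pos rfl]
    rcases k with _ | k
    · rw [mk_gt (show 0 < 0 + 1 by omega)]
      have e1 := mk_of 0 0
      have e2 := mk_of 0 1
      rw [zero_add] at e1 e2
      rw [e1, zero_add, e2, pp_succ, pp_zero]
      norm_num
    · have e1 := mk_of 1 k
      have e2 := mk_of 0 (k + 1)
      have e3 := mk_of 0 (k + 1 + 1)
      rw [add_comm 1 k] at e1
      rw [zero_add] at e2 e3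
      have hp := (pp_pos k).ne'
      have hf := (fac_pos k).ne'
      have hf1 := (fac_pos (k + 1)).ne'
      have h1 : pp 1 = 2 / 3 := by
        unfold pp
        norm_num
      rw [zero_add, e1, e2, e3, pp_succ (k + 1), pp_succ k, pp_zero, h1, pow_succ (1 / 3 : ℝ) (k + 1)]
      rw [pow_succ (1 / 3 : ℝ) (k + 1)] at hf1
      field_simp
      ring
  · -- `r + 1`, `k + 1 = r + 1 + d`
    have hk : k = r + d := by omega
    subst hk
    unfold T2
    rw [if_neg (Nat.succ_ne_zero r), Nat.add_sub_cancel]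
    have hr := (pp_pos r).ne'
    have hf := (fac_pos r).ne'
    have hf1 := (fac_pos (r + 1)).ne'
    have ea := mk_of r d
    have eb : mk (r + d + 1) (r + 1) = (1 / 3) ^ ((r + 1) * (r + 1)) * pp (r + 1 + d) ^ 2 /
        (pp (r + 1) ^ 2 * pp d) := by
      rw [show r + d + 1 = r + 1 + d by omega, mk_of]
    rcases d with _ | d
    · rw [add_zero] at ea eb ⊢
      rw [mk_gt (show r < r + 1 by omega), mk_gt (show r < r + 1 + 1 by omega), ea, eb, add_zero,
        pp_zero]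
      have hp1 := (pp_pos (r + 1)).ne'
      field_simp
      rw [show (r + 1) * (r + 1) = r * r + (r + (r + 1)) by ring, pow_add, pow_add]
      ring
    · rcases d with _ | d
      · rw [zero_add] at ea eb ⊢
        have ec := mk_of (r + 1) 0
        rw [add_zero] at ec
        rw [mk_gt (show r + 1 < r + 1 + 1 by omega), ec, ea, eb, pp_zero, pp_succ (r + 1), pp_succ r]
        have h1 : pp 1 = 2 / 3 := by
          unfold pp
          norm_num
        rw [h1]
        field_simp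
        rw [show (r + 1) * (r + 1) = r * r + (r + (r + 1)) by ring, pow_add (1 / 3 : ℝ) (r * r),
          pow_add (1 / 3 : ℝ) r, pow_succ (1 / 3 : ℝ) (r + 1), pow_succ (1 / 3 : ℝ) r]
        ring
      · -- general case
        have ec := mk_of (r + 1) (d + 1)
        have ed := mk_of (r + 1 + 1) d
        have e3 : r + (d + 1 + 1) = r + 1 + (d + 1) := by omega
        have e4 : r + (d + 1 + 1) = r + 1 + 1 + d := by omega
        have e5 : r + 1 + (d + 1 + 1) = r + (d + 1 + 1) + 1 := by omega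
        rw [e5] at eb
        have ec' : mk (r + (d + 1 + 1)) (r + 1) = (1 / 3) ^ ((r + 1) * (r + 1)) *
            pp (r + (d + 1 + 1)) ^ 2 / (pp (r + 1) ^ 2 * pp (d + 1)) := by rw [e3, ec]
        have ed' : mk (r + (d + 1 + 1)) (r + 1 + 1) = (1 / 3) ^ ((r + 1 + 1) * (r + 1 + 1)) *
            pp (r + (d + 1 + 1)) ^ 2 / (pp (r + 1 + 1) ^ 2 * pp d) := by
          rw [e4, ed]
        rw [ea, eb, ec', ed']
        set q := pp (r + (d + 1 + 1)) with hq
        have hq0 : q ≠ 0 := (pp_pos _).ne'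
        rw [pp_succ (r + (d + 1 + 1)), ← hq, pp_succ (r + 1), pp_succ r, pp_succ (d + 1), pp_succ d]
        have hd0 := (pp_pos d).ne'
        have hd1 := (fac_pos d).ne'
        have hd2 := (fac_pos (d + 1)).ne'
        obtain ⟨x, hx⟩ : ∃ x : ℝ, x = (1 / 3) ^ r := ⟨_, rfl⟩
        obtain ⟨y, hy⟩ : ∃ y : ℝ, y = (1 / 3) ^ d := ⟨_, rfl⟩
        obtain ⟨z, hz⟩ : ∃ z : ℝ, z = (1 / 3) ^ (r * r) := ⟨_, rfl⟩
        have p1 : (1 / 3 : ℝ) ^ (r + 1) = x * (1 / 3) := by rw [pow_succ, hx]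
        have p2 : (1 / 3 : ℝ) ^ (r + 1 + 1) = x * (1 / 3) * (1 / 3) := by rw [pow_succ, p1]
        have p3 : (1 / 3 : ℝ) ^ (d + 1) = y * (1 / 3) := by rw [pow_succ, hy]
        have p4 : (1 / 3 : ℝ) ^ (d + 1 + 1) = y * (1 / 3) * (1 / 3) := by rw [pow_succ, p3]
        have p5 : (1 / 3 : ℝ) ^ (r + (d + 1 + 1) + 1) = x * (y * (1 / 3) * (1 / 3)) * (1 / 3) := by
          rw [pow_succ, pow_add, p4, hx]
        have p6 : (1 / 3 : ℝ) ^ ((r + 1) * (r + 1)) = z * x * x * (1 / 3) := by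
          rw [show (r + 1) * (r + 1) = r * r + r + r + 1 by ring, pow_succ, pow_add, pow_add, hx, hz]
        have p7 : (1 / 3 : ℝ) ^ ((r + 1 + 1) * (r + 1 + 1)) = z * x * x * x * x * (1 / 3) ^ 4 := by
          rw [show (r + 1 + 1) * (r + 1 + 1) = r * r + r + r + r + r + 4 by ring, pow_add, pow_add,
            pow_add, pow_add, pow_add, hx, hz]
        rw [p1] at hf
        rw [p2] at hf1
        rw [p3] at hd1
        rw [p4] at hd2
        rw [p1, p2, p3, p4, p5, p6, p7, ← hx, ← hz]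
        obtain ⟨u, hu⟩ : ∃ u : ℝ, u = 1 - x * (1 / 3) := ⟨_, rfl⟩
        obtain ⟨v, hv⟩ : ∃ v : ℝ, v = 1 - x * (1 / 3) * (1 / 3) := ⟨_, rfl⟩
        obtain ⟨g, hg⟩ : ∃ g : ℝ, g = 1 - y * (1 / 3) := ⟨_, rfl⟩
        obtain ⟨t, ht⟩ : ∃ t : ℝ, t = 1 - y * (1 / 3) * (1 / 3) := ⟨_, rfl⟩
        rw [← hu] at hf ⊢
        rw [← hv] at hf1 ⊢
        rw [← hg] at hd1 ⊢
        rw [← ht] at hd2 ⊢
        field_simp
        rw [hu, hv, ht, hg]
        ring

theorem mk_zero (k : ℕ) : mk k 0 = pp k := by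
  have h := mk_of 0 k
  rw [zero_add] at h
  rw [h, pp_zero]
  have := (pp_pos k).ne'
  field_simp
  ring

/-- the cumulative distribution functions -/
theorem conv2_cum (k : ℕ) {n : ℕ} (R : Matrix (Fin n) (Fin (n + 1)) (ZMod 3)) (r : ℕ) :
    |∑ s ∈ Finset.range r, d2 k R s - ∑ s ∈ Finset.range r, mk k s| ≤
      ((2 / 3) ^ k * 2 ^ (n + 1)) / 2 ^ r := by
  induction k generalizing r with
  | zero =>
    rw [pow_zero, one_mul]
    have hmk : ∀ r, 0 < r → ∑ s ∈ Finset.range r, mk 0 s = 1 := by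
      intro r hr
      rw [Finset.sum_eq_single 0]
      · rw [mk_zero, pp_zero]
      · intro s _ hs
        exact mk_gt (by omega)
      · intro h
        exact absurd (Finset.mem_range.2 hr) h
    rcases Nat.eq_zero_or_pos r with rfl | hr
    · simp
    · rw [hmk r hr]
      rcases lt_or_ge (n + 1) r with h | h
      · rw [d2_sum 0 R (by omega), sub_self, abs_zero]
        positivity
      · have h0 : 0 ≤ ∑ s ∈ Finset.range r, d2 0 R s := Finset.sum_nonneg fun s _ => d2_nonneg 0 R s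
        have h1 : ∑ s ∈ Finset.range r, d2 0 R s ≤ 1 := by
          rw [← d2_sum 0 R (show n + 1 + 0 < n + 2 by omega)]
          exact Finset.sum_le_sum_of_subset_of_nonneg (Finset.range_subset_range.2 (by omega))
            fun s _ _ => d2_nonneg 0 R s
        have h2 : (1 : ℝ) ≤ 2 ^ (n + 1) / 2 ^ r := by
          rw [le_div_iff₀ (by positivity), one_mul]
          exact pow_le_pow_right₀ (by norm_num) h
        rw [abs_le]
        constructor <;> linarith
  | succ k ih =>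
    have h1 := contract2 ih r
    have e1 : ∑ s ∈ Finset.range r, d2 (k + 1) R s = ∑ s ∈ Finset.range r, T2 (d2 k R) s :=
      Finset.sum_congr rfl fun s _ => d2_succ k R s
    have e2 : ∑ s ∈ Finset.range r, mk (k + 1) s = ∑ s ∈ Finset.range r, T2 (mk k) s :=
      Finset.sum_congr rfl fun s _ => (T2_mk k s).symm
    rw [e1, e2]
    refine h1.trans (le_of_eq ?_)
    rw [pow_succ]
    ring

/-- `∏_{i ≥ 1} (1 - 3^{-i})` -/
noncomputable def ppi : ℝ := ∏' i : ℕ, (1 - (1 / 3 : ℝ) ^ (i + 1))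

theorem pp_tendsto : Tendsto pp atTop (𝓝 ppi) := by
  have h1 : Summable (fun i : ℕ => -((1 / 3 : ℝ) ^ (i + 1))) := by
    apply Summable.neg
    have : Summable (fun i : ℕ => (1 / 3 : ℝ) ^ i) :=
      summable_geometric_of_lt_one (by norm_num) (by norm_num)
    exact (summable_nat_add_iff 1).mpr this
  have h2 := (Real.multipliable_one_add_of_summable h1).hasProd.tendsto_prod_nat
  have h3 : (fun i : ℕ => 1 + -((1 / 3 : ℝ) ^ (i + 1))) = fun i : ℕ => 1 - (1 / 3 : ℝ) ^ (i + 1) := by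
    funext i; ring
  rw [h3] at h2
  exact h2

theorem pp_le_one (k : ℕ) : pp k ≤ 1 := by
  refine Finset.prod_le_one (fun i _ => (fac_pos i).le) fun i _ => ?_
  have := (third_pow_le i).2
  linarith

theorem pp_diff (k j : ℕ) : 0 ≤ pp k - pp (k + j) ∧
    pp k - pp (k + j) ≤ 1 / 2 * ((1 / 3) ^ k - (1 / 3) ^ (k + j)) := by
  induction j with
  | zero => simp
  | succ j ih =>
    rw [← add_assoc, pp_succ]
    have h1 := pp_pos (k + j)
    have h2 := pp_le_one (k + j)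
    have h3 := third_pow_le (k + j)
    have h4 : (1 / 3 : ℝ) ^ (k + j + 1) = (1 / 3) ^ (k + j) / 3 := by rw [pow_succ]; ring
    constructor
    · nlinarith [ih.1, h3.2]
    · have h5 : pp (k + j) * (1 / 3) ^ (k + j + 1) ≤ (1 / 3) ^ (k + j + 1) := by
        nlinarith [h3.2]
      have h6 := ih.2
      rw [h4] at h5 ⊢
      nlinarith

theorem pp_ppi (k : ℕ) : |pp k - ppi| ≤ 1 / 2 * (1 / 3) ^ k := by
  have h1 : Tendsto (fun j => pp (k + j)) atTop (𝓝 ppi) := by
    have := (tendsto_add_atTop_iff_nat k).2 pp_tendsto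
    refine this.congr fun j => ?_
    rw [add_comm]
  have h2 : 0 ≤ pp k - ppi := by
    refine ge_of_tendsto' (h1.const_sub (pp k)) fun j => (pp_diff k j).1
  have h3 : pp k - ppi ≤ 1 / 2 * (1 / 3) ^ k := by
    refine le_of_tendsto' (h1.const_sub (pp k)) fun j => (pp_diff k j).2.trans ?_
    have : (0 : ℝ) < (1 / 3) ^ (k + j) := by positivity
    linarith
  rw [abs_of_nonneg h2]
  exact h3

/-- **exponential convergence** -/
theorem conv2 (k : ℕ) {n : ℕ} (R : Matrix (Fin n) (Fin (n + 1)) (ZMod 3)) :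
    |d2 k R 0 - ppi| ≤ (2 ^ n + 1) * (2 / 3) ^ k := by
  have h1 := conv2_cum k R 1
  rw [Finset.sum_range_one, Finset.sum_range_one, mk_zero] at h1
  have h2 := pp_ppi k
  have h3 : (1 / 3 : ℝ) ^ k ≤ (2 / 3) ^ k := pow_le_pow_left₀ (by norm_num) (by norm_num) k
  have h4 : ((2 / 3 : ℝ) ^ k * 2 ^ (n + 1)) / 2 ^ 1 = (2 / 3) ^ k * 2 ^ n := by
    rw [pow_succ]
    ring
  rw [h4] at h1
  have h5 := abs_sub_le (d2 k R 0) (pp k) ppi
  have h6 : (0 : ℝ) < (2 / 3) ^ k := by positivity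
  nlinarith

/-- bounds for the limit -/
theorem ppi_bounds : (0.56 : ℝ) < ppi ∧ ppi < 0.5602 := by
  have h := pp_ppi 10
  have h0 : pp 10 = (1 - 1 / 3) * (1 - 1 / 9) * (1 - 1 / 27) * (1 - 1 / 81) * (1 - 1 / 243) *
      (1 - 1 / 729) * (1 - 1 / 2187) * (1 - 1 / 6561) * (1 - 1 / 19683) * (1 - 1 / 59049) := by
    unfold pp
    simp only [Finset.prod_range_succ, Finset.prod_range_zero]
    norm_num
  rw [h0, abs_le] at h
  norm_num at h ⊢
  constructor <;> linarith [h.1, h.2]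

end Pool.Agent.U687.MC
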