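import Pool.Agent.U687.MC.Rk

/-!
# The Markov chain of the coranks of matrices without symmetry
-/

set_option autoImplicit false
set_option linter.unusedSectionVars false

open scoped Classical

namespace Pool.Agent.U687.MC

open Finset Matrix Filter Topology

section defs
variable {n : ℕ}

/-- the diagonal of the rows -/
def dg (a : Fin n → ZMod 3) : Matrix (Fin n) (Fin (n + 1)) (ZMod 3) :=
  Matrix.of fun p k => if p.castSucc = k then a p else 0

/-- the matrix with a perturbed diagonal and a new row -/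
def pert (R : Matrix (Fin n) (Fin (n + 1)) (ZMod 3)) (a : Fin n → ZMod 3)
    (b : Fin (n + 1) → ZMod 3) : Matrix (Fin (n + 1)) (Fin (n + 1)) (ZMod 3) := addr (R + dg a) b

/-- a new vertex -/
def br (R : Matrix (Fin n) (Fin (n + 1)) (ZMod 3)) (x : Fin n → ZMod 3)
    (y : Fin (n + 1) → ZMod 3) : Matrix (Fin (n + 1)) (Fin (n + 2)) (ZMod 3) :=
  addr (addc R x) (Fin.cons 0 y)

theorem dg_add (a b : Fin n → ZMod 3) : dg (a + b) = dg a + dg b := by
  ext p k
  show (if p.castSucc = k then (a + b) p else 0) = (if p.castSucc = k then a p else 0) +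
    (if p.castSucc = k then b p else 0)
  split_ifs
  · rfl
  · ring

theorem dg_zero : dg (0 : Fin n → ZMod 3) = 0 := by
  ext p k
  show (if p.castSucc = k then (0 : ZMod 3) else 0) = 0
  split_ifs <;> rfl

theorem br_dg (R : Matrix (Fin n) (Fin (n + 1)) (ZMod 3)) (x z : Fin n → ZMod 3)
    (y : Fin (n + 1) → ZMod 3) (c : ZMod 3) :
    addr (addc (R + dg z) x) (Fin.cons c y) =
      br R x y + dg (Fin.cons c z : Fin (n + 1) → ZMod 3) := by
  ext p k
  refine Fin.cases ?_ (fun p => ?_) p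
  · refine Fin.cases ?_ (fun k => ?_) k
    · show c = 0 + (if (0 : Fin (n + 1)).castSucc = 0 then c else 0)
      rw [if_pos (by rfl), zero_add]
    · show y k = y k + (if (0 : Fin (n + 1)).castSucc = k.succ then c else 0)
      rw [if_neg (fun h => Fin.succ_ne_zero k h.symm), add_zero]
  · refine Fin.cases ?_ (fun k => ?_) k
    · show x p = x p + (if p.succ.castSucc = 0 then z p else 0)
      rw [if_neg (fun h => by
        have := congrArg Fin.val h
        simp at this), add_zero]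
    · show R p k + (if p.castSucc = k then z p else 0) =
        R p k + (if p.succ.castSucc = k.succ then z p else 0)
      have : (p.succ.castSucc = k.succ) ↔ p.castSucc = k := by
        rw [← Fin.succ_castSucc]
        exact Fin.succ_inj
      by_cases h : p.castSucc = k
      · rw [if_pos h, if_pos (this.2 h)]
      · rw [if_neg h, if_neg fun h' => h (this.1 h')]

/-- two rows may be exchanged -/
theorem cor_swap {m : ℕ} (N : Matrix (Fin m) (Fin (m + 2)) (ZMod 3)) (v w : Fin (m + 2) → ZMod 3) :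
    cor (addr (addr N v) w) = cor (addr (addr N w) v) := by
  have h1 : (addr (addr N v) w) = (addr (addr N w) v).submatrix
      (Equiv.swap (0 : Fin (m + 2)) 1) (Equiv.refl _) := by
    ext p k
    rw [Matrix.submatrix_apply, Equiv.refl_apply]
    refine Fin.cases ?_ (fun p => ?_) p
    · rw [Equiv.swap_apply_left]
      rfl
    · refine Fin.cases ?_ (fun p => ?_) p
      · have e1 : (0 : Fin (m + 1)).succ = 1 := rfl
        rw [e1, Equiv.swap_apply_right]
        rfl
      · rw [Equiv.swap_apply_of_ne_of_ne (Fin.succ_ne_zero _) (by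
          have e1 : (1 : Fin (m + 2)) = (0 : Fin (m + 1)).succ := rfl
          rw [e1]
          intro h
          exact Fin.succ_ne_zero p (Fin.succ_injective _ h))]
        rfl
  unfold cor
  rw [h1, Matrix.rank_submatrix]

theorem addc_addr {m l : ℕ} (N : Matrix (Fin m) (Fin l) (ZMod 3)) (v : Fin l → ZMod 3)
    (c : ZMod 3) (x : Fin m → ZMod 3) :
    addc (addr N v) (Fin.cons c x : Fin (m + 1) → ZMod 3) =
      addr (addc N x) (Fin.cons c v : Fin (l + 1) → ZMod 3) := by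
  ext p k
  refine Fin.cases ?_ (fun p => ?_) p <;> rfl

/-- the matrix after the adjunction of a vertex -/
theorem pert_br (R : Matrix (Fin n) (Fin (n + 1)) (ZMod 3)) (x a : Fin n → ZMod 3)
    (y b : Fin (n + 1) → ZMod 3) (c β : ZMod 3) :
    cor (pert (br R x y) (Fin.cons c a : Fin (n + 1) → ZMod 3)
      (Fin.cons β b : Fin (n + 2) → ZMod 3)) =
      cor (gb (pert R a b) (Fin.cons β x : Fin (n + 1) → ZMod 3)
        (Fin.cons c y : Fin (n + 2) → ZMod 3)) := by
  unfold pert gb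
  rw [addc_addr, ← br_dg]
  exact cor_swap _ _ _

/-- the mean of `G` of the corank after `k` new vertices -/
noncomputable def EG : (k : ℕ) → {n : ℕ} → Matrix (Fin n) (Fin (n + 1)) (ZMod 3) → (ℕ → ℝ) → ℝ
  | 0, n, R, G => (∑ a : Fin n → ZMod 3, ∑ b : Fin (n + 1) → ZMod 3, G (cor (pert R a b))) /
      3 ^ (2 * n + 1)
  | k + 1, n, R, G => (∑ x : Fin n → ZMod 3, ∑ y : Fin (n + 1) → ZMod 3, EG k (br R x y) G) /
      3 ^ (2 * n + 1)

theorem sum_two_cons {p q : ℕ} (f : (Fin (p + 1) → ZMod 3) → (Fin (q + 1) → ZMod 3) → ℝ) :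
    ∑ A, ∑ B, f A B = ∑ c : ZMod 3, ∑ a : Fin p → ZMod 3, ∑ β : ZMod 3, ∑ b : Fin q → ZMod 3,
      f (Fin.cons c a) (Fin.cons β b) := by
  rw [sum_cons]
  exact Finset.sum_congr rfl fun c _ => Finset.sum_congr rfl fun a _ => sum_cons _

theorem sum_six {A B C D E F : Type} [Fintype A] [Fintype B] [Fintype C] [Fintype D] [Fintype E]
    [Fintype F] (S : C → A → D → B → E → F → ℝ) :
    ∑ x : E, ∑ y : F, ∑ c : C, ∑ a : A, ∑ β : D, ∑ b : B, S c a β b x y =
      ∑ a : A, ∑ b : B, ∑ β : D, ∑ x : E, ∑ c : C, ∑ y : F, S c a β b x y := by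
  have h1 : ∑ x : E, ∑ y : F, ∑ c : C, ∑ a : A, ∑ β : D, ∑ b : B, S c a β b x y =
      ∑ z : E × F × C × A × D × B, S z.2.2.1 z.2.2.2.1 z.2.2.2.2.1 z.2.2.2.2.2 z.1 z.2.1 := by
    simp only [Fintype.sum_prod_type]
  have h2 : ∑ a : A, ∑ b : B, ∑ β : D, ∑ x : E, ∑ c : C, ∑ y : F, S c a β b x y =
      ∑ z : A × B × D × E × C × F, S z.2.2.2.2.1 z.1 z.2.2.1 z.2.1 z.2.2.2.1 z.2.2.2.2.2 := by
    simp only [Fintype.sum_prod_type]
  rw [h1, h2]
  exact Fintype.sum_equiv
    { toFun := fun z => (z.2.2.2.1, z.2.2.2.2.2, z.2.2.2.2.1, z.1, z.2.2.1, z.2.1)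
      invFun := fun z => (z.2.2.2.1, z.2.2.2.2.2, z.2.2.2.2.1, z.1, z.2.2.1, z.2.1)
      left_inv := fun z => rfl
      right_inv := fun z => rfl } _ _ fun z => rfl

theorem EG_zero_left {n : ℕ} (R : Matrix (Fin n) (Fin (n + 1)) (ZMod 3)) (G : ℕ → ℝ)
    (x : Fin n → ZMod 3) (y : Fin (n + 1) → ZMod 3) :
    (∑ A : Fin (n + 1) → ZMod 3, ∑ B : Fin (n + 1 + 1) → ZMod 3,
          G (cor (pert (br R x y) A B))) = ∑ c : ZMod 3, ∑ a : Fin n → ZMod 3, ∑ β : ZMod 3,
            ∑ b : Fin (n + 1) → ZMod 3, G (cor (gb (pert R a b) (Fin.cons β x) (Fin.cons c y))) := by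
  rw [sum_two_cons]
  exact Finset.sum_congr rfl fun c _ => Finset.sum_congr rfl fun a _ =>
    Finset.sum_congr rfl fun β _ => Finset.sum_congr rfl fun b _ => by rw [pert_br]

theorem EG_zero_right {n : ℕ} (R : Matrix (Fin n) (Fin (n + 1)) (ZMod 3)) (G : ℕ → ℝ)
    (a : Fin n → ZMod 3) (b : Fin (n + 1) → ZMod 3) :
    U2 G (cor (pert R a b)) = (∑ β : ZMod 3, ∑ x : Fin n → ZMod 3, ∑ c : ZMod 3,
      ∑ y : Fin (n + 1) → ZMod 3, G (cor (gb (pert R a b) (Fin.cons β x) (Fin.cons c y)))) /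
        3 ^ (2 * (n + 1) + 1) := by
  rw [← step2 (pert R a b) G]
  congr 1
  exact sum_two_cons _

theorem EG_step (k : ℕ) : ∀ {n : ℕ} (R : Matrix (Fin n) (Fin (n + 1)) (ZMod 3)) (G : ℕ → ℝ),
    EG (k + 1) R G = EG k R (U2 G) := by
  induction k with
  | zero =>
    intro n R G
    have hL : EG (0 + 1) R G = ((∑ x : Fin n → ZMod 3, ∑ y : Fin (n + 1) → ZMod 3, ∑ c : ZMod 3,
        ∑ a : Fin n → ZMod 3, ∑ β : ZMod 3, ∑ b : Fin (n + 1) → ZMod 3,
          G (cor (gb (pert R a b) (Fin.cons β x) (Fin.cons c y)))) / 3 ^ (2 * (n + 1) + 1)) /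
            3 ^ (2 * n + 1) := by
      unfold EG
      congr 1
      rw [Finset.sum_div]
      refine Finset.sum_congr rfl fun x _ => ?_
      rw [Finset.sum_div]
      refine Finset.sum_congr rfl fun y _ => ?_
      unfold EG
      congr 1
      exact EG_zero_left R G x y
    have hR : EG 0 R (U2 G) = ((∑ a : Fin n → ZMod 3, ∑ b : Fin (n + 1) → ZMod 3, ∑ β : ZMod 3,
        ∑ x : Fin n → ZMod 3, ∑ c : ZMod 3, ∑ y : Fin (n + 1) → ZMod 3,
          G (cor (gb (pert R a b) (Fin.cons β x) (Fin.cons c y)))) / 3 ^ (2 * (n + 1) + 1)) /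
            3 ^ (2 * n + 1) := by
      unfold EG
      congr 1
      rw [Finset.sum_div]
      refine Finset.sum_congr rfl fun a _ => ?_
      rw [Finset.sum_div]
      refine Finset.sum_congr rfl fun b _ => ?_
      exact EG_zero_right R G a b
    have h := sum_six fun (c : ZMod 3) (a : Fin n → ZMod 3) (β : ZMod 3)
      (b : Fin (n + 1) → ZMod 3) (x : Fin n → ZMod 3) (y : Fin (n + 1) → ZMod 3) =>
      G (cor (gb (pert R a b) (Fin.cons β x) (Fin.cons c y)))
    beta_reduce at h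
    rw [hL, hR, h]
  | succ k ih =>
    intro n R G
    show (∑ x : Fin n → ZMod 3, ∑ y : Fin (n + 1) → ZMod 3, EG (k + 1) (br R x y) G) /
      3 ^ (2 * n + 1) = (∑ x : Fin n → ZMod 3, ∑ y : Fin (n + 1) → ZMod 3,
        EG k (br R x y) (U2 G)) / 3 ^ (2 * n + 1)
    simp only [ih]

/-! ### invariance -/

theorem sum_add_eq {n : ℕ} (z : Fin n → ZMod 3) (F : (Fin n → ZMod 3) → ℝ) :
    ∑ y : Fin n → ZMod 3, F (z + y) = ∑ y : Fin n → ZMod 3, F y :=
  Fintype.sum_equiv (Equiv.addLeft z) _ _ fun _ => rfl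

theorem EG_dg (k : ℕ) : ∀ {n : ℕ} (R : Matrix (Fin n) (Fin (n + 1)) (ZMod 3)) (z : Fin n → ZMod 3)
    (G : ℕ → ℝ), EG k (R + dg z) G = EG k R G := by
  induction k with
  | zero =>
    intro n R z G
    show (∑ a : Fin n → ZMod 3, ∑ b : Fin (n + 1) → ZMod 3, G (cor (pert (R + dg z) a b))) /
      3 ^ (2 * n + 1) = (∑ a : Fin n → ZMod 3, ∑ b : Fin (n + 1) → ZMod 3, G (cor (pert R a b))) /
      3 ^ (2 * n + 1)
    congr 1
    rw [← sum_add_eq z (fun a => ∑ b : Fin (n + 1) → ZMod 3, G (cor (pert R a b)))]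
    refine Finset.sum_congr rfl fun a _ => Finset.sum_congr rfl fun b _ => ?_
    unfold pert
    rw [dg_add, add_assoc]
  | succ k ih =>
    intro n R z G
    show (∑ x : Fin n → ZMod 3, ∑ y : Fin (n + 1) → ZMod 3, EG k (br (R + dg z) x y) G) /
      3 ^ (2 * n + 1) = (∑ x : Fin n → ZMod 3, ∑ y : Fin (n + 1) → ZMod 3,
        EG k (br R x y) G) / 3 ^ (2 * n + 1)
    congr 1
    refine Finset.sum_congr rfl fun x _ => Finset.sum_congr rfl fun y _ => ?_
    have h1 : br (R + dg z) x y = br R x y + dg (Fin.cons 0 z : Fin (n + 1) → ZMod 3) := br_dg R x z y 0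
    rw [h1, ih]

/-- the corner does not matter -/
theorem EG_corner (k : ℕ) {n : ℕ} (R : Matrix (Fin n) (Fin (n + 1)) (ZMod 3)) (x : Fin n → ZMod 3)
    (y : Fin (n + 1) → ZMod 3) (c : ZMod 3) (G : ℕ → ℝ) :
    EG k (addr (addc R x) (Fin.cons c y : Fin (n + 2) → ZMod 3)) G = EG k (br R x y) G := by
  have h1 := br_dg R x 0 y c
  rw [dg_zero, add_zero] at h1
  rw [h1, EG_dg]

/-- the rows may be multiplied by units -/
theorem cor_scale {n : ℕ} (M : Matrix (Fin n) (Fin n) (ZMod 3)) {s : Fin n → ZMod 3}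
    (hs : ∀ p, s p ≠ 0) : cor (diagonal s * M) = cor M := by
  have hu : IsUnit (diagonal s).det := by
    rw [Matrix.det_diagonal]
    exact (Finset.prod_ne_zero_iff.2 fun p _ => hs p).isUnit
  unfold cor
  rw [Matrix.rank_mul_eq_right_of_isUnit_det (diagonal s) M hu]

theorem pert_scale {n : ℕ} (R : Matrix (Fin n) (Fin (n + 1)) (ZMod 3)) (s a : Fin n → ZMod 3)
    (b : Fin (n + 1) → ZMod 3) :
    pert (Matrix.of fun p k => s p * R p k) (fun p => s p * a p) b =
      diagonal (Fin.cons 1 s : Fin (n + 1) → ZMod 3) * pert R a b := by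
  ext p k
  rw [Matrix.diagonal_mul]
  refine Fin.cases ?_ (fun p => ?_) p
  · show b k = 1 * b k
    rw [one_mul]
  · show s p * R p k + (if p.castSucc = k then s p * a p else 0) =
      s p * (R p k + if p.castSucc = k then a p else 0)
    split_ifs
    · ring
    · ring

theorem sum_mul_eq {n : ℕ} {s : Fin n → ZMod 3} (hs : ∀ p, s p ≠ 0)
    (F : (Fin n → ZMod 3) → ℝ) :
    ∑ y : Fin n → ZMod 3, F (fun p => s p * y p) = ∑ y : Fin n → ZMod 3, F y := by
  refine Fintype.sum_bijective (fun (y : Fin n → ZMod 3) p => s p * y p) ?_ _ _ fun _ => rfl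
  refine Finite.injective_iff_bijective.1 fun y y' h => ?_
  funext p
  exact mul_left_cancel₀ (hs p) (congrFun h p)

theorem EG_scale (k : ℕ) : ∀ {n : ℕ} (R : Matrix (Fin n) (Fin (n + 1)) (ZMod 3))
    (s : Fin n → ZMod 3), (∀ p, s p ≠ 0) → ∀ G : ℕ → ℝ,
      EG k (Matrix.of fun p k => s p * R p k) G = EG k R G := by
  induction k with
  | zero =>
    intro n R s hs G
    show (∑ a : Fin n → ZMod 3, ∑ b : Fin (n + 1) → ZMod 3,
      G (cor (pert (Matrix.of fun p k => s p * R p k) a b))) /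
      3 ^ (2 * n + 1) = (∑ a : Fin n → ZMod 3, ∑ b : Fin (n + 1) → ZMod 3, G (cor (pert R a b))) /
      3 ^ (2 * n + 1)
    congr 1
    refine (sum_mul_eq hs (fun a => ∑ b : Fin (n + 1) → ZMod 3,
      G (cor (pert (Matrix.of fun p k => s p * R p k) a b)))).symm.trans ?_
    refine Finset.sum_congr rfl fun a _ => Finset.sum_congr rfl fun b _ => ?_
    rw [pert_scale, cor_scale]
    intro p
    refine Fin.cases one_ne_zero (fun p => hs p) p
  | succ k ih =>
    intro n R s hs G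
    show (∑ x : Fin n → ZMod 3, ∑ y : Fin (n + 1) → ZMod 3,
      EG k (br (Matrix.of fun p k => s p * R p k) x y) G) /
      3 ^ (2 * n + 1) = (∑ x : Fin n → ZMod 3, ∑ y : Fin (n + 1) → ZMod 3,
        EG k (br R x y) G) / 3 ^ (2 * n + 1)
    congr 1
    refine (sum_mul_eq hs (fun x => ∑ y : Fin (n + 1) → ZMod 3,
      EG k (br (Matrix.of fun p k => s p * R p k) x y) G)).symm.trans ?_
    refine Finset.sum_congr rfl fun x _ => Finset.sum_congr rfl fun y _ => ?_
    rw [← ih (br R x y) (Fin.cons 1 s : Fin (n + 1) → ZMod 3) (fun p => by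
      refine Fin.cases one_ne_zero (fun p => hs p) p) G]
    congr 1
    ext p k
    refine Fin.cases ?_ (fun p => ?_) p
    · show (Fin.cons 0 y : Fin (n + 2) → ZMod 3) k = 1 * (Fin.cons 0 y : Fin (n + 2) → ZMod 3) k
      rw [one_mul]
    · refine Fin.cases ?_ (fun k => ?_) k
      · rfl
      · rfl

theorem EG_neg (k : ℕ) {n : ℕ} (R : Matrix (Fin n) (Fin (n + 1)) (ZMod 3)) (x : Fin n → ZMod 3)
    (y : Fin (n + 1) → ZMod 3) (G : ℕ → ℝ) : EG k (br R x (-y)) G = EG k (br R x y) G := by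
  rw [← EG_scale k (br R x y) (Fin.cons (-1) (fun _ => 1) : Fin (n + 1) → ZMod 3) (fun p => by
      refine Fin.cases (show (-1 : ZMod 3) ≠ 0 by decide) (fun p => one_ne_zero) p) G]
  congr 1
  ext p k
  refine Fin.cases ?_ (fun p => ?_) p
  · refine Fin.cases ?_ (fun k => ?_) k
    · show (0 : ZMod 3) = -1 * 0
      ring
    · show -(y k) = -1 * y k
      ring
  · refine Fin.cases ?_ (fun k => ?_) k
    · show x p = 1 * x p
      ring
    · show R p k = 1 * R p k
      ring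

/-! ### linearity -/

theorem EG_add (k : ℕ) : ∀ {n : ℕ} (R : Matrix (Fin n) (Fin (n + 1)) (ZMod 3)) (G H : ℕ → ℝ),
    EG k R (fun r => G r + H r) = EG k R G + EG k R H := by
  induction k with
  | zero =>
    intro n R G H
    show (∑ a : Fin n → ZMod 3, ∑ b : Fin (n + 1) → ZMod 3,
      (G (cor (pert R a b)) + H (cor (pert R a b)))) / 3 ^ (2 * n + 1) = _
    simp only [Finset.sum_add_distrib]
    rw [add_div]
    rfl
  | succ k ih =>
    intro n R G H
    show (∑ x : Fin n → ZMod 3, ∑ y : Fin (n + 1) → ZMod 3, EG k (br R x y) (fun r => G r + H r)) /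
      3 ^ (2 * n + 1) = _
    simp only [ih, Finset.sum_add_distrib]
    rw [add_div]
    rfl

theorem EG_smul (k : ℕ) : ∀ {n : ℕ} (R : Matrix (Fin n) (Fin (n + 1)) (ZMod 3)) (c : ℝ)
    (G : ℕ → ℝ), EG k R (fun r => c * G r) = c * EG k R G := by
  induction k with
  | zero =>
    intro n R c G
    show (∑ a : Fin n → ZMod 3, ∑ b : Fin (n + 1) → ZMod 3,
      (c * G (cor (pert R a b)))) / 3 ^ (2 * n + 1) = _
    simp only [← Finset.mul_sum]
    rw [mul_div_assoc]
    rfl
  | succ k ih =>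
    intro n R c G
    show (∑ x : Fin n → ZMod 3, ∑ y : Fin (n + 1) → ZMod 3, EG k (br R x y) (fun r => c * G r)) /
      3 ^ (2 * n + 1) = _
    simp only [ih, ← Finset.mul_sum]
    rw [mul_div_assoc]
    rfl

theorem card_two (n : ℕ) (c : ℝ) : (∑ _a : Fin n → ZMod 3, ∑ _b : Fin (n + 1) → ZMod 3, c) /
    3 ^ (2 * n + 1) = c := by
  rw [Finset.sum_const, Finset.sum_const, Finset.card_univ, Finset.card_univ, Fintype.card_fun,
    Fintype.card_fun, Fintype.card_fin, Fintype.card_fin, ZMod.card, nsmul_eq_mul, nsmul_eq_mul]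
  push_cast
  rw [← mul_assoc, ← pow_add, show n + (n + 1) = 2 * n + 1 by ring]
  field_simp

theorem EG_one (k : ℕ) : ∀ {n : ℕ} (R : Matrix (Fin n) (Fin (n + 1)) (ZMod 3)),
    EG k R (fun _ => 1) = 1 := by
  induction k with
  | zero =>
    intro n R
    exact card_two n 1
  | succ k ih =>
    intro n R
    show (∑ x : Fin n → ZMod 3, ∑ y : Fin (n + 1) → ZMod 3, EG k (br R x y) (fun _ => 1)) /
      3 ^ (2 * n + 1) = 1
    simp only [ih]
    exact card_two n 1

theorem EG_nonneg (k : ℕ) : ∀ {n : ℕ} (R : Matrix (Fin n) (Fin (n + 1)) (ZMod 3)) {G : ℕ → ℝ},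
    (∀ r, 0 ≤ G r) → 0 ≤ EG k R G := by
  induction k with
  | zero =>
    intro n R G h
    exact div_nonneg (Finset.sum_nonneg fun a _ => Finset.sum_nonneg fun b _ => h _) (by positivity)
  | succ k ih =>
    intro n R G h
    exact div_nonneg (Finset.sum_nonneg fun a _ => Finset.sum_nonneg fun b _ => ih _ h)
      (by positivity)

theorem EG_congr (k : ℕ) : ∀ {n : ℕ} (R : Matrix (Fin n) (Fin (n + 1)) (ZMod 3)) {G H : ℕ → ℝ},
    (∀ r ≤ n + 1 + k, G r = H r) → EG k R G = EG k R H := by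
  induction k with
  | zero =>
    intro n R G H h
    show (∑ a : Fin n → ZMod 3, ∑ b : Fin (n + 1) → ZMod 3, G (cor (pert R a b))) /
      3 ^ (2 * n + 1) = (∑ a : Fin n → ZMod 3, ∑ b : Fin (n + 1) → ZMod 3, H (cor (pert R a b))) /
      3 ^ (2 * n + 1)
    congr 1
    refine Finset.sum_congr rfl fun a _ => Finset.sum_congr rfl fun b _ => h _ ?_
    unfold cor
    omega
  | succ k ih =>
    intro n R G H h
    show (∑ x : Fin n → ZMod 3, ∑ y : Fin (n + 1) → ZMod 3, EG k (br R x y) G) /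
      3 ^ (2 * n + 1) = (∑ x : Fin n → ZMod 3, ∑ y : Fin (n + 1) → ZMod 3,
        EG k (br R x y) H) / 3 ^ (2 * n + 1)
    congr 1
    exact Finset.sum_congr rfl fun a _ => Finset.sum_congr rfl fun b _ =>
      ih _ fun r hr => h r (by omega)

theorem EG_sum (k : ℕ) {n : ℕ} (R : Matrix (Fin n) (Fin (n + 1)) (ZMod 3)) (S : Finset ℕ)
    (G : ℕ → ℕ → ℝ) : EG k R (fun s => ∑ r ∈ S, G r s) = ∑ r ∈ S, EG k R (G r) := by
  induction S using Finset.induction_on with
  | empty =>
    simp only [Finset.sum_empty]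
    have := EG_smul k R 0 (fun _ => 0)
    simpa using this
  | insert a S ha ih =>
    simp only [Finset.sum_insert ha]
    rw [EG_add, ih]

/-- the distribution of the corank -/
noncomputable def d2 (k : ℕ) {n : ℕ} (R : Matrix (Fin n) (Fin (n + 1)) (ZMod 3)) (r : ℕ) : ℝ :=
  EG k R (pt r)

theorem d2_nonneg (k : ℕ) {n : ℕ} (R : Matrix (Fin n) (Fin (n + 1)) (ZMod 3)) (r : ℕ) :
    0 ≤ d2 k R r := EG_nonneg k R fun s => by unfold pt; split_ifs <;> norm_num

theorem d2_sum (k : ℕ) {n : ℕ} (R : Matrix (Fin n) (Fin (n + 1)) (ZMod 3)) {m : ℕ}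
    (hm : n + 1 + k < m) : ∑ r ∈ Finset.range m, d2 k R r = 1 := by
  unfold d2
  rw [← EG_sum, ← EG_one k R]
  refine EG_congr k R fun s hs => ?_
  unfold pt
  rw [Finset.sum_ite_eq]
  rw [if_pos (Finset.mem_range.2 (by omega))]

/-- one step of the chain -/
noncomputable def T2 (μ : ℕ → ℝ) (r : ℕ) : ℝ :=
  (1 - (1 / 3) ^ (r + 1)) ^ 2 * μ (r + 1) +
    ((1 / 3) ^ r * (1 - (1 / 3) ^ (r + 1)) + (1 - (1 / 3) ^ r) * (1 / 3) ^ r) * μ r +
    (if r = 0 then 0 else (1 / 3) ^ (r - 1) * (1 / 3) ^ r * μ (r - 1))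

theorem U2_pt (r s : ℕ) : U2 (pt r) s =
    ((1 - (1 / 3) ^ (r + 1)) ^ 2 * pt (r + 1) s +
    ((1 / 3) ^ r * (1 - (1 / 3) ^ (r + 1)) + (1 - (1 / 3) ^ r) * (1 / 3) ^ r) * pt r s) +
    (if r = 0 then 0 else (1 / 3) ^ (r - 1) * (1 / 3) ^ r * pt (r - 1) s) := by
  unfold U2 pt
  rcases Nat.eq_zero_or_pos s with rfl | hs
  · rcases Nat.eq_zero_or_pos r with rfl | hr
    · simp
    · rcases eq_or_ne r 1 with rfl | h1
      · simp
      · have e1 : ¬ (0 : ℕ) = r := by omega
        have e2 : ¬ (0 : ℕ) - 1 = r := by omega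
        have e3 : ¬ 0 + 1 = r := by omega
        have e4 : ¬ (0 : ℕ) = r + 1 := by omega
        have e5 : ¬ r = 0 := by omega
        have e6 : ¬ 0 = r - 1 := by omega
        simp [e1, e2, e3, e4, e5, e6]
  · by_cases h1 : s = r + 1
    · subst h1
      have e2 : r + 1 - 1 = r := rfl
      have e3 : ¬ r + 1 + 1 = r := by omega
      have e4 : ¬ r + 1 = r - 1 := by omega
      simp [e3, e4]
    · by_cases h2 : s = r
      · subst h2
        have e2 : ¬ s - 1 = s := by omega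
        have e4 : ¬ s = s - 1 := by omega
        simp [e2, e4]
      · by_cases h3 : s + 1 = r
        · subst h3
          have e2 : ¬ s - 1 = s + 1 := by omega
          have e4 : ¬ s = s + 1 + 1 := by omega
          simp [e2, e4]
        · have e2 : ¬ s - 1 = r := by omega
          have e4 : ¬ s = r - 1 := by omega
          by_cases h5 : r = 0
          · subst h5
            have e5 : ¬ s = 1 := h1
            have e6 : ¬ s = 0 := h2
            have e7 : ¬ s - 1 = 0 := e2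
            simp [e5, e6, e7]
          · simp [e2, e4, h1, h2, h3]

theorem d2_succ (k : ℕ) {n : ℕ} (R : Matrix (Fin n) (Fin (n + 1)) (ZMod 3)) (r : ℕ) :
    d2 (k + 1) R r = T2 (d2 k R) r := by
  unfold d2 T2
  rw [EG_step k R (pt r)]
  have h1 : U2 (pt r) = fun s => (((1 - (1 / 3) ^ (r + 1)) ^ 2 * pt (r + 1) s +
    ((1 / 3) ^ r * (1 - (1 / 3) ^ (r + 1)) + (1 - (1 / 3) ^ r) * (1 / 3) ^ r) * pt r s)) +
    (if r = 0 then 0 else (1 / 3) ^ (r - 1) * (1 / 3) ^ r * pt (r - 1) s) :=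
    funext fun s => U2_pt r s
  rw [h1, EG_add, EG_add, EG_smul, EG_smul]
  congr 1
  split_ifs with h
  · have := EG_smul k R 0 (fun _ => 0)
    simpa using this
  · rw [EG_smul]

end defs

end Pool.Agent.U687.MC
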