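import Pool.Agent.U687.MC.Conv2
import Pool.Agent.U687.PT.Law

/-!
# Iterated means over the rational primes
-/

set_option autoImplicit false
set_option linter.unusedSectionVars false

open scoped Classical

namespace Pool.Agent.U687.MC

open Finset Matrix Filter Topology
open Pool.Agent.Y703.CX (lam)
open Pool.Agent.Y703.CT (NoSplit)
open Pool.Agent.Y692.QS
open Pool.Agent.Y715.T.Rec (cs nn)
open Pool.Agent.Y715.T.RecG (Pq cs_of)
open Pool.Agent.Y333.CX (pp_spec)
open Pool.Agent.Y405.CT (pq_star)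
open Q283.TQ (NSg mu Bs aa bb pq_neg crit eq_or_star bs_mul mu_mul mu_mul_self lam_aa lam_bb)
open Q283.TC (FT NT Dat NT_split few_inert sqrt_div_pc mod_three HH)
open Pool.Agent.W401.Cheb (M pr mem_pr M_congr M_sum M_smul)
open Pool.Agent.U687.PT

open Pool.Agent.U687.KT (card_ker) in
theorem cor_zero_iff' {n : ℕ} (M : Matrix (Fin n) (Fin n) (ZMod 3)) :
    cor M = 0 ↔ ∀ v, M *ᵥ v = 0 → v = 0 := by
  have h5 := (card_ker M).1
  constructor
  · intro h v hv
    have h6 : n - M.rank = 0 := h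
    rw [h6, pow_zero] at h5
    obtain ⟨x, hx⟩ := Nat.card_eq_one_iff_exists.1 h5
    have h7 := hx ⟨v, hv⟩
    have h8 := hx ⟨0, by rw [Matrix.mulVec_zero]⟩
    exact congrArg Subtype.val (h7.trans h8.symm)
  · intro h
    have h6 : Nat.card {v : Fin n → ZMod 3 // M *ᵥ v = 0} = 1 := by
      rw [Nat.card_eq_one_iff_exists]
      exact ⟨⟨0, Matrix.mulVec_zero M⟩, fun v => Subtype.ext (h v.1 v.2)⟩
    rw [h6] at h5
    by_contra hne
    have h7 : 1 < 3 ^ (n - M.rank) := Nat.one_lt_pow hne (by norm_num)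
    omega

/-! ### the mean over the primes in a residue class -/

/-- the number of the primes -/
noncomputable def cq (j X : ℕ) : ℕ := ((Icc 1 X).filter fun l => l.Prime ∧ l % 9 = j).card

/-- the mean over the primes not dividing `D` -/
noncomputable def aq (j D : ℕ) (T : ℕ → ℝ) (X : ℕ) : ℝ :=
  (∑ l ∈ (Icc 1 X).filter (fun l => l.Prime ∧ l % 9 = j ∧ ¬ l ∣ D), T l) / (cq j X : ℝ)

theorem FT_fiber {p : ℕ} (hp : p.Prime) (h1 : p % 3 = 1) (T : Ei → Prop) :
    (FT T p : ℝ) = (if T (Pool.Agent.Y703.CX.pp p) then 1 else 0) +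
      (if T (star (Pool.Agent.Y703.CX.pp p)) then 1 else 0) := by
  obtain ⟨hπ, hn⟩ := pp_spec hp h1
  set π := Pool.Agent.Y703.CX.pp p with hπd
  have hm : p ∈ S1 p := mem_S1.2 ⟨Nat.mem_primeFactors.2 ⟨hp, dvd_refl p, hp.ne_zero⟩, h1⟩
  have hne : π ≠ star π := not_star hm hm
  have hn' : nr (star π) = p := by rw [nr_star, hn]
  have e1 : {ρ : Ei | Pq ρ ∧ nr ρ = p ∧ T ρ} = ((({π, star π} : Finset Ei).filter T : Finset Ei) : Set Ei) := by
    ext ρ
    rw [Set.mem_ofPred_eq, Finset.coe_filter, Set.mem_ofPred_eq, Finset.mem_insert,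
      Finset.mem_singleton]
    constructor
    · rintro ⟨h4, h5, h6⟩
      exact ⟨eq_or_star hπ hn hp h4 h5, h6⟩
    · rintro ⟨rfl | rfl, h6⟩
      · exact ⟨hπ, hn, h6⟩
      · exact ⟨pq_star hπ, hn', h6⟩
  have e3 : FT T p = Set.ncard {ρ : Ei | Pq ρ ∧ nr ρ = p ∧ T ρ} := rfl
  rw [e3, e1, Set.ncard_coe_finset, Finset.card_filter, Finset.sum_pair hne]
  push_cast
  rfl

theorem FT_zero {p : ℕ} (T : Ei → Prop) (h : ∀ ρ, Pq ρ → nr ρ = p → ¬ T ρ) : (FT T p : ℝ) = 0 := by
  have e1 : IsEmpty {π : Ei // Pq π ∧ nr π = p ∧ T π} := by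
    refine ⟨fun π => ?_⟩
    obtain ⟨h4, h5, h6⟩ := π.2
    exact h _ h4 h5 h6
  unfold FT
  rw [Nat.card_of_isEmpty]
  norm_num

/-- the symbols of a primary prime -/
noncomputable def sy (D : ℕ) (π : Ei) : (S1 D → ZMod 3) × (D.primeFactors → ZMod 3) :=
  Phi D fun q : PP D => cs π q

/-- **the mean of a function of the symbols** -/
theorem meanQ {D : ℕ} (hD : Bs D) {j : ℕ} (hj : j = 1 ∨ j = 4 ∨ j = 7)
    (F : (S1 D → ZMod 3) × (D.primeFactors → ZMod 3) → ℝ) (T : ℕ → ℝ)
    (hT : ∀ l : ℕ, l.Prime → l % 9 = j → ¬ l ∣ D → ∀ π : Ei, Pq π → nr π = l → T l = F (sy D π)) :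
    Tendsto (aq j D T) atTop (𝓝 ((∑ z, F z) / 3 ^ (2 * (S1 D).card + 1))) := by
  have hP := pq_PP hD
  have hwP : w ∉ PP D := by
    intro h
    apply (hP w h).prime.not_isUnit
    rw [Pool.Agent.Y692.QS.isUnit_iff]; decide
  obtain ⟨L, hL, hN, hG, ⟨E⟩⟩ := exists_dat (PP D) hwP
  set y0 : ZMod 3 := ((j / 3 : ℕ) : ZMod 3) with hy0
  set N := (PP D).card with hNd
  set κ : ℝ := 2 * (Nat.card (HH E.Z) : ℝ) / (Nat.card Gal(L/ℚ) : ℝ) with hκ
  have hκ0 : 0 < κ := by
    have h1 := Nat.card_pos (α := HH E.Z)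
    have h2 := Nat.card_pos (α := Gal(L/ℚ))
    positivity
  -- the densities
  have d1 : ∀ z : (S1 D → ZMod 3) × (D.primeFactors → ZMod 3),
      Tendsto (M fun p => (FT (fun π => cs π w = y0 ∧ sy D π = z) p : ℝ)) atTop
        (𝓝 (κ * (1 / 3 ^ (N + 1)))) := by
    intro z
    obtain ⟨x, hx⟩ := (Phi_bij hD).2 z
    have h1 := E.dens hP (fun y => y.2 = y0 ∧ Phi D y.1 = z)
      (fun π => cs π w = y0 ∧ sy D π = z) (fun π _ _ => Iff.rfl)
    have c1 : Nat.card {y : (PP D → ZMod 3) × ZMod 3 // y.2 = y0 ∧ Phi D y.1 = z} = 1 := by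
      rw [Nat.card_eq_one_iff_exists]
      refine ⟨⟨(x, y0), rfl, hx⟩, ?_⟩
      rintro ⟨⟨a, b⟩, h2, h3⟩
      apply Subtype.ext
      refine Prod.ext ?_ h2
      exact (Phi_bij hD).1 (h3.trans hx.symm)
    rw [c1, Nat.cast_one] at h1
    exact FT_tendsto h1
  have d0 := E.dens hP (fun z => z.2 = y0) (fun π => cs π w = y0) (fun π _ _ => Iff.rfl)
  have c0 : Nat.card {z : (PP D → ZMod 3) × ZMod 3 // z.2 = y0} = 3 ^ N := by
    have e1 : Nat.card (PP D → ZMod 3) = 3 ^ N := by
      rw [Nat.card_fun]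
      simp [hNd]
    rw [← e1]
    refine Nat.card_congr
      { toFun := fun z => z.1.1
        invFun := fun x => ⟨(x, y0), rfl⟩
        left_inv := fun z => Subtype.ext (Prod.ext rfl z.2.symm)
        right_inv := fun x => rfl }
  rw [c0] at d0
  have f0 := FT_tendsto d0
  have f1 : Tendsto (M fun p => ∑ z, F z * (FT (fun π => cs π w = y0 ∧ sy D π = z) p : ℝ)) atTop
      (𝓝 (∑ z, F z * (κ * (1 / 3 ^ (N + 1))))) := by
    have h2 : Tendsto (fun X => ∑ z, F z * M (fun p =>
        (FT (fun π => cs π w = y0 ∧ sy D π = z) p : ℝ)) X) atTop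
        (𝓝 (∑ z, F z * (κ * (1 / 3 ^ (N + 1))))) :=
      tendsto_finsetSum _ fun z _ => (d1 z).const_mul (F z)
    refine h2.congr fun X => ?_
    rw [M_sum]
    exact Finset.sum_congr rfl fun z _ => (M_smul (F z) _ X).symm
  have hD0 : 0 < 3 * D := by
    have := Nat.pos_of_ne_zero hD.ne_zero
    omega
  have hcl : ∀ {p : ℕ} {π : Ei}, p % 3 = 1 → Pq π → nr π = p → (cs π w = y0 ↔ p % 9 = j) := by
    intro p π h1 hπ hn
    rw [cs_w hπ h1 hn, class_eq hj h1]
  have g1 : Tendsto (M fun p => if p % 9 = j ∧ ¬ p ∣ D then 2 * T p else 0) atTop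
      (𝓝 (∑ z, F z * (κ * (1 / 3 ^ (N + 1))))) := by
    refine M_congr hD0 (fun p hp hpD => ?_) f1
    have h3 : p ≠ 3 := by
      rintro rfl
      exact hpD (dvd_mul_right _ _)
    have hpD' : ¬ p ∣ D := fun h => hpD (h.mul_left _)
    by_cases h9 : p % 9 = j
    · have h1 : p % 3 = 1 := by rcases hj with rfl | rfl | rfl <;> omega
      rw [if_pos ⟨h9, hpD'⟩]
      obtain ⟨hπ, hn⟩ := pp_spec hp h1
      have hn' : nr (star (Pool.Agent.Y703.CX.pp p)) = p := by rw [nr_star, hn]
      have e1 : ∀ z, (FT (fun π => cs π w = y0 ∧ sy D π = z) p : ℝ) =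
          (if sy D (Pool.Agent.Y703.CX.pp p) = z then 1 else 0) +
          (if sy D (star (Pool.Agent.Y703.CX.pp p)) = z then 1 else 0) := by
        intro z
        rw [FT_fiber hp h1]
        congr 1
        · simp only [(hcl h1 hπ hn).2 h9, true_and]
        · simp only [(hcl h1 (pq_star hπ) hn').2 h9, true_and]
      simp only [e1, mul_add, Finset.sum_add_distrib]
      simp only [mul_ite, mul_one, mul_zero, Finset.sum_ite_eq, Finset.mem_univ, if_true]
      rw [← hT p hp h9 hpD' _ hπ hn, ← hT p hp h9 hpD' _ (pq_star hπ) hn']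
      ring
    · rw [if_neg fun h => h9 h.1]
      symm
      refine Finset.sum_eq_zero fun z _ => ?_
      rw [FT_zero _ fun ρ h4 h5 h6 => h9 ((hcl (mod_three h5 hp h3) h4 h5).1 h6.1), mul_zero]
  have g0 : Tendsto (M fun p => if p % 9 = j then (2 : ℝ) else 0) atTop
      (𝓝 (κ * (((3 ^ N : ℕ) : ℝ) / 3 ^ (N + 1)))) := by
    refine M_congr hD0 (fun p hp hpD => ?_) f0
    have h3 : p ≠ 3 := by
      rintro rfl
      exact hpD (dvd_mul_right _ _)
    symm
    refine FT_eq hp h3 _ _ (fun h1 π hπ hn => hcl h1 hπ hn) (fun h9 => ?_)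
    rcases hj with rfl | rfl | rfl <;> omega
  have h6 := g1.div g0 (by positivity)
  have h7 : (∑ z, F z * (κ * (1 / 3 ^ (N + 1)))) / (κ * (((3 ^ N : ℕ) : ℝ) / 3 ^ (N + 1))) =
      (∑ z, F z) / 3 ^ (2 * (S1 D).card + 1) := by
    have hN2 : N = 2 * (S1 D).card + 1 := card_PP hD
    rw [← hN2, ← Finset.sum_mul]
    push_cast
    field_simp
  rw [h7] at h6
  refine h6.congr' ?_
  filter_upwards [eventually_ge_atTop 2] with X hX
  have hpc : (Nat.primeCounting X : ℝ) ≠ 0 := by
    have : 0 < Nat.primeCounting X := by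
      have h := Nat.monotone_primeCounting hX
      have h2 : Nat.primeCounting 2 = 1 := by decide
      omega
    positivity
  show M _ X / M _ X = _
  unfold M
  rw [div_div_div_cancel_right₀ hpc]
  have e0 := sum_two (fun p => p % 9 = j) X
  have e1 : ∑ p ∈ pr X, (if p % 9 = j ∧ ¬ p ∣ D then 2 * T p else 0) =
      2 * ∑ l ∈ (Icc 1 X).filter (fun l => l.Prime ∧ l % 9 = j ∧ ¬ l ∣ D), T l := by
    rw [← Finset.sum_filter, ← Finset.mul_sum]
    congr 1
    refine Finset.sum_congr ?_ fun _ _ => rfl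
    ext l
    rw [Finset.mem_filter, Finset.mem_filter, mem_pr, Finset.mem_Icc]
    constructor
    · rintro ⟨⟨h1, h2⟩, h3⟩
      exact ⟨⟨h2.pos, h1⟩, h2, h3⟩
    · rintro ⟨⟨h1, h2⟩, h3, h4⟩
      exact ⟨⟨h2, h3⟩, h4⟩
  refine (congrArg₂ (· / ·) e1 e0).trans ?_
  show 2 * _ / (2 * _) = _
  rw [mul_div_mul_left _ _ two_ne_zero]
  rfl

/-! ### enumerations of the prime divisors -/

/-- an enumeration of the prime divisors, the last one `2` modulo `3` -/
structure En (D n : ℕ) (P : Fin (n + 1) → ℕ) : Prop where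
  inj : Function.Injective P
  img : D.primeFactors = Finset.univ.image P
  last : P (Fin.last n) % 3 = 2
  one : ∀ p : Fin n, P p.castSucc % 3 = 1

theorem exists_en {D : ℕ} (hD : Bs D) : ∃ P : Fin ((S1 D).card + 1) → ℕ, En D (S1 D).card P := by
  obtain ⟨q, hqm, hq2, hqn, hpf⟩ := exists_q hD
  set e := (S1 D).equivFin with he
  refine ⟨Fin.snoc (fun i => ((e.symm i : S1 D) : ℕ)) q, ?_, ?_, ?_, ?_⟩
  · intro i
    refine Fin.lastCases ?_ (fun i => ?_) i
    · intro k
      refine Fin.lastCases (fun _ => rfl) (fun k h => ?_) k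
      rw [Fin.snoc_last, Fin.snoc_castSucc] at h
      exfalso
      apply hqn
      rw [h]
      exact (e.symm k).2
    · intro k
      refine Fin.lastCases (fun h => ?_) (fun k h => ?_) k
      · rw [Fin.snoc_last, Fin.snoc_castSucc] at h
        exfalso
        apply hqn
        rw [← h]
        exact (e.symm i).2
      · rw [Fin.snoc_castSucc, Fin.snoc_castSucc] at h
        have := e.symm.injective (Subtype.ext h)
        rw [this]
  · ext r
    rw [hpf, Finset.mem_insert, Finset.mem_image]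
    constructor
    · rintro (rfl | hr)
      · exact ⟨Fin.last _, Finset.mem_univ _, Fin.snoc_last _ _⟩
      · refine ⟨(e ⟨r, hr⟩).castSucc, Finset.mem_univ _, ?_⟩
        rw [Fin.snoc_castSucc, Equiv.symm_apply_apply]
    · rintro ⟨k, -, rfl⟩
      refine Fin.lastCases ?_ (fun k => ?_) k
      · left
        exact Fin.snoc_last _ _
      · right
        rw [Fin.snoc_castSucc]
        exact (e.symm k).2
  · rw [Fin.snoc_last]
    exact hq2
  · intro p
    rw [Fin.snoc_castSucc]
    exact (mem_S1.1 (e.symm p).2).2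

section en
variable {D n : ℕ} {P : Fin (n + 1) → ℕ}

theorem En.mem (h : En D n P) (k : Fin (n + 1)) : P k ∈ D.primeFactors := by
  rw [h.img]
  exact Finset.mem_image_of_mem P (Finset.mem_univ k)

theorem En.ex (h : En D n P) {r : ℕ} (hr : r ∈ D.primeFactors) : ∃ k, P k = r := by
  rw [h.img] at hr
  obtain ⟨k, -, hk⟩ := Finset.mem_image.1 hr
  exact ⟨k, hk⟩

theorem En.ex1 (h : En D n P) {r : ℕ} (hr : r ∈ D.primeFactors) (h1 : r % 3 = 1) :
    ∃ p : Fin n, P p.castSucc = r := by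
  obtain ⟨k, hk⟩ := h.ex hr
  revert hk
  refine Fin.lastCases (fun hk => ?_) (fun k hk => ⟨k, hk⟩) k
  have := h.last
  rw [hk] at this
  omega

theorem En.memS (h : En D n P) (p : Fin n) : P p.castSucc ∈ S1 D := mem_S1.2 ⟨h.mem _, h.one p⟩

theorem En.sum (h : En D n P) (F : ℕ → ZMod 3) : ∑ r ∈ D.primeFactors, F r = ∑ k, F (P k) := by
  rw [h.img, Finset.sum_image fun a _ b _ hab => h.inj hab]

/-- the enumeration of the prime divisors `1` modulo `3` -/
noncomputable def En.e1 (h : En D n P) : Fin n ≃ S1 D :=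
  Equiv.ofBijective (fun p => ⟨P p.castSucc, h.memS p⟩) ⟨fun p p' hh => by
    have h2 := congrArg Subtype.val hh
    exact Fin.castSucc_injective n (h.inj h2), fun r => by
    obtain ⟨h2, h3⟩ := mem_S1.1 r.2
    obtain ⟨p, hp⟩ := h.ex1 h2 h3
    exact ⟨p, Subtype.ext hp⟩⟩

noncomputable def En.e2 (h : En D n P) : Fin (n + 1) ≃ D.primeFactors :=
  Equiv.ofBijective (fun k => ⟨P k, h.mem k⟩) ⟨fun k k' hh => h.inj (congrArg Subtype.val hh),
    fun r => by
    obtain ⟨p, hp⟩ := h.ex r.2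
    exact ⟨p, Subtype.ext hp⟩⟩

theorem En.card (h : En D n P) : (S1 D).card = n := by
  rw [← Fintype.card_coe, ← Fintype.card_congr h.e1, Fintype.card_fin]

theorem En.cons (h : En D n P) (hD : D ≠ 0) {l : ℕ} (hl : l.Prime) (h1 : l % 3 = 1)
    (hlD : ¬ l ∣ D) : En (D * l) (n + 1) (Fin.cons l P : Fin (n + 2) → ℕ) := by
  have hne : ∀ k, P k ≠ l := fun k hk => hlD (hk ▸ Nat.dvd_of_mem_primeFactors (h.mem k))
  refine ⟨?_, ?_, ?_, ?_⟩
  · intro k
    refine Fin.cases ?_ (fun k => ?_) k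
    · intro k'
      refine Fin.cases (fun _ => rfl) (fun k' hk => ?_) k'
      exact absurd hk.symm (hne k')
    · intro k'
      refine Fin.cases (fun hk => ?_) (fun k' hk => ?_) k'
      · exact absurd hk (hne k)
      · have h5 : k = k' := h.inj hk
        rw [h5]
  · ext r
    rw [Q283.TQ.pf_mul hD hl, Finset.mem_insert, h.img, Finset.mem_image, Finset.mem_image]
    constructor
    · rintro (rfl | ⟨k, -, hk⟩)
      · exact ⟨0, Finset.mem_univ _, rfl⟩
      · exact ⟨k.succ, Finset.mem_univ _, hk⟩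
    · rintro ⟨k, -, hk⟩
      revert hk
      refine Fin.cases (fun hk => ?_) (fun k hk => ?_) k
      · exact Or.inl hk.symm
      · exact Or.inr ⟨k, Finset.mem_univ _, hk⟩
  · exact h.last
  · intro p
    refine Fin.cases ?_ (fun p => ?_) p
    · exact h1
    · exact h.one p

/-- the matrix of the symbols -/
noncomputable def RD (D : ℕ) (P : Fin (n + 1) → ℕ) : Matrix (Fin n) (Fin (n + 1)) (ZMod 3) :=
  Matrix.of fun p k => mu D (P k) * lam (P p.castSucc) (P k)

/-- the system in terms of the matrix -/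
theorem nsg_cor (h : En D n P) (a b : ℕ → ZMod 3) :
    NSg D a b ↔ cor (pert (RD D P)
      (fun p => -(∑ k, RD D P p k) - a (P p.castSucc)) (fun k => mu D (P k) * b (P k))) = 0 := by
  rw [cor_zero_iff']
  have hrow : ∀ (v : Fin (n + 1) → ZMod 3) (p : Fin n),
      (pert (RD D P) (fun p => -(∑ k, RD D P p k) - a (P p.castSucc))
        (fun k => mu D (P k) * b (P k)) *ᵥ v) p.succ =
      ∑ k, mu D (P k) * lam (P p.castSucc) (P k) * (v k - v p.castSucc) -
        a (P p.castSucc) * v p.castSucc := by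
    intro v p
    show ∑ k, (RD D P p k + (if p.castSucc = k then -(∑ k, RD D P p k) - a (P p.castSucc) else 0)) *
      v k = _
    have e1 : ∀ k, (RD D P p k +
        (if p.castSucc = k then -(∑ k, RD D P p k) - a (P p.castSucc) else 0)) * v k =
        RD D P p k * v k + (if p.castSucc = k then (-(∑ k, RD D P p k) - a (P p.castSucc)) *
          v p.castSucc else 0) := by
      intro k
      by_cases hk : p.castSucc = k
      · rw [if_pos hk, if_pos hk, ← hk]
        ring
      · rw [if_neg hk, if_neg hk]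
        ring
    rw [Finset.sum_congr rfl fun k _ => e1 k, Finset.sum_add_distrib, Finset.sum_ite_eq,
      if_pos (Finset.mem_univ _)]
    have e2 : ∑ k, mu D (P k) * lam (P p.castSucc) (P k) * (v k - v p.castSucc) =
        ∑ k, RD D P p k * v k - (∑ k, RD D P p k) * v p.castSucc := by
      rw [Finset.sum_mul, ← Finset.sum_sub_distrib]
      exact Finset.sum_congr rfl fun k _ => by
        show _ = mu D (P k) * lam (P p.castSucc) (P k) * v k -
          mu D (P k) * lam (P p.castSucc) (P k) * v p.castSucc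
        ring
    rw [e2]
    ring
  have hrow0 : ∀ (v : Fin (n + 1) → ZMod 3),
      (pert (RD D P) (fun p => -(∑ k, RD D P p k) - a (P p.castSucc))
        (fun k => mu D (P k) * b (P k)) *ᵥ v) 0 = ∑ k, mu D (P k) * b (P k) * v k := fun v => rfl
  constructor
  · intro hN v hv
    set g : ℕ → ZMod 3 := fun r => if hr : ∃ k, P k = r then v hr.choose else 0 with hg
    have hgP : ∀ k, g (P k) = v k := by
      intro k
      have hr : ∃ k', P k' = P k := ⟨k, rfl⟩
      rw [hg]
      simp only [dif_pos hr]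
      rw [h.inj hr.choose_spec]
    have h1 := hN g (fun r hr hr1 => by
      obtain ⟨p, rfl⟩ := h.ex1 hr hr1
      rw [h.sum]
      simp only [hgP]
      have h2 := congrFun hv p.succ
      rw [hrow] at h2
      exact sub_eq_zero.1 h2) (by
      rw [h.sum]
      simp only [hgP]
      have h2 := congrFun hv 0
      rw [hrow0] at h2
      exact h2)
    funext k
    rw [← hgP]
    exact h1 _ (h.mem k)
  · intro hM g h1 h2 r hr
    have h3 := hM (fun k => g (P k)) (by
      funext p
      refine Fin.cases ?_ (fun p => ?_) p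
      · rw [hrow0, ← h.sum fun r => mu D r * b r * g r]
        exact h2
      · rw [hrow, ← h.sum fun r => mu D r * lam (P p.castSucc) r * (g r - g (P p.castSucc))]
        rw [h1 _ (h.mem _) (h.one p), sub_self]
        rfl)
    obtain ⟨k, rfl⟩ := h.ex hr
    exact congrFun h3 k

end en

end Pool.Agent.U687.MC
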