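import Pool.Agent.U687.MC.Conv

/-!
# The rank of a matrix with a random new column and a random new row
-/

set_option autoImplicit false
set_option linter.unusedSectionVars false

open scoped Classical

namespace Pool.Agent.U687.MC

open Finset Matrix

section rk
variable {m n : ℕ}

/-- a new first column -/
def addc (N : Matrix (Fin m) (Fin n) (ZMod 3)) (u : Fin m → ZMod 3) :
    Matrix (Fin m) (Fin (n + 1)) (ZMod 3) :=
  Matrix.of fun j => (Fin.cons (u j) (N j) : Fin (n + 1) → ZMod 3)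

/-- a new first row -/
def addr (N : Matrix (Fin m) (Fin n) (ZMod 3)) (w : Fin n → ZMod 3) :
    Matrix (Fin (m + 1)) (Fin n) (ZMod 3) :=
  Matrix.of (Fin.cons w N : Fin (m + 1) → Fin n → ZMod 3)

theorem addc_mulVec (N : Matrix (Fin m) (Fin n) (ZMod 3)) (u : Fin m → ZMod 3) (c : ZMod 3)
    (x : Fin n → ZMod 3) : addc N u *ᵥ (Fin.cons c x : Fin (n + 1) → ZMod 3) = c • u + N *ᵥ x := by
  funext j
  show ∑ k : Fin (n + 1), (Fin.cons (u j) (N j) : Fin (n + 1) → ZMod 3) k *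
    (Fin.cons c x : Fin (n + 1) → ZMod 3) k = c * u j + ∑ k, N j k * x k
  rw [Fin.sum_univ_succ]
  simp only [Fin.cons_zero, Fin.cons_succ]
  ring

theorem range_addc (N : Matrix (Fin m) (Fin n) (ZMod 3)) (u : Fin m → ZMod 3) :
    LinearMap.range (addc N u).mulVecLin = Submodule.span (ZMod 3) {u} ⊔ LinearMap.range N.mulVecLin := by
  ext y
  rw [LinearMap.mem_range, Submodule.mem_sup]
  constructor
  · rintro ⟨z, rfl⟩
    refine ⟨z 0 • u, Submodule.smul_mem _ _ (Submodule.mem_span_singleton_self u),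
      N *ᵥ (fun k => z k.succ), ⟨fun k => z k.succ, rfl⟩, ?_⟩
    rw [Matrix.mulVecLin_apply]
    have : z = (Fin.cons (z 0) (fun k => z k.succ) : Fin (n + 1) → ZMod 3) := by
      funext k
      refine Fin.cases rfl (fun k => rfl) k
    conv_rhs => rw [this]
    rw [addc_mulVec]
  · rintro ⟨a, ha, b, ⟨x, hx⟩, rfl⟩
    obtain ⟨c, rfl⟩ := Submodule.mem_span_singleton.1 ha
    refine ⟨(Fin.cons c x : Fin (n + 1) → ZMod 3), ?_⟩
    rw [Matrix.mulVecLin_apply, addc_mulVec, ← hx]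
    rfl

theorem rank_addc (N : Matrix (Fin m) (Fin n) (ZMod 3)) (u : Fin m → ZMod 3) :
    (addc N u).rank = N.rank + if (∃ x, N *ᵥ x = u) then 0 else 1 := by
  have h0 : (addc N u).rank = Module.finrank (ZMod 3) (LinearMap.range (addc N u).mulVecLin) := rfl
  have h1 : N.rank = Module.finrank (ZMod 3) (LinearMap.range N.mulVecLin) := rfl
  rw [h0, h1, range_addc]
  split_ifs with h
  · obtain ⟨x, hx⟩ := h
    have h2 : Submodule.span (ZMod 3) {u} ≤ LinearMap.range N.mulVecLin := by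
      rw [Submodule.span_singleton_le_iff_mem]
      exact ⟨x, hx⟩
    rw [sup_eq_right.2 h2, add_zero]
  · have hu : u ≠ 0 := by
      rintro rfl
      exact h ⟨0, Matrix.mulVec_zero _⟩
    have h3 : Submodule.span (ZMod 3) {u} ⊓ LinearMap.range N.mulVecLin = ⊥ := by
      rw [eq_bot_iff]
      rintro y ⟨hy1, hy2⟩
      obtain ⟨c, rfl⟩ := Submodule.mem_span_singleton.1 hy1
      rw [Submodule.mem_bot]
      by_contra hne
      have hc : c ≠ 0 := fun hc => hne (by rw [hc, zero_smul])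
      apply h
      have h4 : u ∈ LinearMap.range N.mulVecLin := by
        have := Submodule.smul_mem _ c⁻¹ hy2
        rwa [smul_smul, inv_mul_cancel₀ hc, one_smul] at this
      obtain ⟨x, hx⟩ := h4
      exact ⟨x, hx⟩
    have h5 := Submodule.finrank_sup_add_finrank_inf_eq (Submodule.span (ZMod 3) {u})
      (LinearMap.range N.mulVecLin)
    rw [h3, finrank_bot, add_zero, finrank_span_singleton hu] at h5
    rw [h5, add_comm]

theorem card_imgG (N : Matrix (Fin m) (Fin n) (ZMod 3)) :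
    (Finset.univ.filter fun b : Fin m → ZMod 3 => ∃ u, N *ᵥ u = b).card = 3 ^ N.rank := by
  have h1 : Nat.card (LinearMap.range N.mulVecLin) =
      3 ^ Module.finrank (ZMod 3) (LinearMap.range N.mulVecLin) := by
    rw [Module.natCard_eq_pow_finrank (K := ZMod 3), Nat.card_zmod]
  have h2 : Module.finrank (ZMod 3) (LinearMap.range N.mulVecLin) = N.rank := rfl
  rw [h2] at h1
  rw [← h1, ← Fintype.card_subtype, ← Nat.card_eq_fintype_card]
  exact Nat.card_congr (Equiv.subtypeEquivRight fun b => by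
    rw [LinearMap.mem_range]
    simp only [Matrix.mulVecLin_apply])

/-- the mean over the new column -/
theorem mean_addc (N : Matrix (Fin m) (Fin n) (ZMod 3)) (F : ℕ → ℝ) :
    (∑ u : Fin m → ZMod 3, F (addc N u).rank) = 3 ^ N.rank * F N.rank +
      (3 ^ m - 3 ^ N.rank) * F (N.rank + 1) := by
  have h1 : ∀ u : Fin m → ZMod 3, F (addc N u).rank =
      if (∃ x, N *ᵥ x = u) then F N.rank else F (N.rank + 1) := by
    intro u
    rw [rank_addc]
    split_ifs <;> rfl
  rw [Finset.sum_congr rfl fun u _ => h1 u, Finset.sum_ite, Finset.sum_const, Finset.sum_const,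
    card_imgG]
  have h2 : (Finset.univ.filter fun b : Fin m → ZMod 3 => ¬ ∃ u, N *ᵥ u = b).card +
      3 ^ N.rank = 3 ^ m := by
    have h3 := Finset.card_filter_add_card_filter_not (s := (Finset.univ : Finset (Fin m → ZMod 3)))
      (fun b => ∃ u, N *ᵥ u = b)
    rw [card_imgG, Finset.card_univ, Fintype.card_fun, Fintype.card_fin, ZMod.card] at h3
    omega
  have h4 : ((Finset.univ.filter fun b : Fin m → ZMod 3 => ¬ ∃ u, N *ᵥ u = b).card : ℝ) =
      3 ^ m - 3 ^ N.rank := by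
    have : ((Finset.univ.filter fun b : Fin m → ZMod 3 => ¬ ∃ u, N *ᵥ u = b).card : ℝ) +
      3 ^ N.rank = 3 ^ m := by exact_mod_cast h2
    linarith
  rw [nsmul_eq_mul, nsmul_eq_mul, h4]
  push_cast
  rfl

theorem addr_transpose (N : Matrix (Fin m) (Fin n) (ZMod 3)) (w : Fin n → ZMod 3) :
    (addr N w)ᵀ = addc Nᵀ w := by
  ext j k
  rw [Matrix.transpose_apply]
  refine Fin.cases ?_ (fun k => ?_) k
  · rfl
  · rfl

/-- the mean over the new row -/
theorem mean_addr (N : Matrix (Fin m) (Fin n) (ZMod 3)) (F : ℕ → ℝ) :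
    (∑ w : Fin n → ZMod 3, F (addr N w).rank) = 3 ^ N.rank * F N.rank +
      (3 ^ n - 3 ^ N.rank) * F (N.rank + 1) := by
  have h1 := mean_addc Nᵀ F
  rw [Matrix.rank_transpose] at h1
  rw [← h1]
  refine Finset.sum_congr rfl fun w _ => ?_
  rw [← addr_transpose, Matrix.rank_transpose]

end rk

section step
variable {m : ℕ}

/-- a new first column and a new first row -/
def gb (M : Matrix (Fin m) (Fin m) (ZMod 3)) (u : Fin m → ZMod 3) (w : Fin (m + 1) → ZMod 3) :
    Matrix (Fin (m + 1)) (Fin (m + 1)) (ZMod 3) := addr (addc M u) w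

/-- the backward operator -/
noncomputable def U2 (G : ℕ → ℝ) (r : ℕ) : ℝ :=
  (1 - (1 / 3) ^ r) ^ 2 * G (r - 1) +
    ((1 / 3) ^ r * (1 - (1 / 3) ^ (r + 1)) + (1 - (1 / 3) ^ r) * (1 / 3) ^ r) * G r +
    (1 / 3) ^ r * (1 / 3) ^ (r + 1) * G (r + 1)

/-- **one step** -/
theorem step2 (M : Matrix (Fin m) (Fin m) (ZMod 3)) (G : ℕ → ℝ) :
    (∑ u : Fin m → ZMod 3, ∑ w : Fin (m + 1) → ZMod 3, G (cor (gb M u w))) / 3 ^ (2 * m + 1) =
      U2 G (cor M) := by
  have hr := cor_rank M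
  obtain ⟨r, hr'⟩ : ∃ r, cor M = r := ⟨_, rfl⟩
  obtain ⟨ρ, hρ⟩ : ∃ ρ, M.rank = ρ := ⟨_, rfl⟩
  rw [hr', hρ] at hr
  have h1 : ∀ u : Fin m → ZMod 3, ∑ w : Fin (m + 1) → ZMod 3, G (cor (gb M u w)) =
      3 ^ (addc M u).rank * G (m + 1 - (addc M u).rank) +
      (3 ^ (m + 1) - 3 ^ (addc M u).rank) * G (m + 1 - ((addc M u).rank + 1)) := fun u =>
    mean_addr (addc M u) fun s => G (m + 1 - s)
  rw [Finset.sum_congr rfl fun u _ => h1 u]
  have h2 := mean_addc M fun s => 3 ^ s * G (m + 1 - s) +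
      (3 ^ (m + 1) - 3 ^ s) * G (m + 1 - (s + 1))
  rw [h2, hρ, hr']
  have e1 : m + 1 - ρ = r + 1 := by omega
  have e2 : m + 1 - (ρ + 1) = r := by omega
  have e3 : m + 1 - (ρ + 1 + 1) = r - 1 := by omega
  rw [e1, e2, e3]
  have h5 : (3 : ℝ) ^ m = 3 ^ r * 3 ^ ρ := by rw [← pow_add, hr]
  have h6 : (3 : ℝ) ^ r ≠ 0 := by positivity
  have h7 : (3 : ℝ) ^ ρ ≠ 0 := by positivity
  unfold U2
  rw [pow_succ (3 : ℝ) (2 * m), mul_comm 2 m, pow_mul, h5, pow_succ (3 : ℝ) m, h5, pow_succ (3 : ℝ) ρ,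
    pow_succ (1 / 3 : ℝ), div_pow, one_pow]
  field_simp
  ring

end step

end Pool.Agent.U687.MC
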